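import Pool.Agent.Helper33x.DC.Reduce

/-!
# The determinantal complexity of the permanent is at least `(1 - o(1)) n²`
-/

namespace Pool.Agent.Helper33x.DC

open Module MvPolynomial

/-- the numerical bound -/
def Bound (n m p R b : ℕ) : Prop :=
  ∀ M t f : ℕ, M ≠ 0 → t ≠ 0 → M + (t * p + 1) = t * (b + (p + 1)) + f →
    n = t * (b + (p + 1)) + f →
    (p + 1) * (R * (M * (t * b))) ≤ (p + 1) * (R * m) +
      ((p + 1) * (R * (M * t)) + R * (M * (t * b)) +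
      (p + 1) * (p * (p * (M * (t * b)) +
        p * R ^ (p + 1) * ((t * b ^ (p + 1) + M * t) * cnt (p + 1)))))

lemma ofClosed {K : Type*} [Field K] [CharZero K] {n m : ℕ}
    (A : Matrix (Fin m) (Fin m) (MvPolynomial (Fin n × Fin n) K))
    (hA : ∀ i j, (A i j).totalDegree ≤ 1)
    (hdet : A.det = (Matrix.of fun i j : Fin n =>
      (X (i, j) : MvPolynomial (Fin n × Fin n) K)).permanent)
    {p R b : ℕ} (hp : 1 ≤ p) (hR : 0 < R) (hb : p + 1 ≤ b) : Bound n m p R b := by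
  intro M t f hM ht hcard hn
  have : NeZero M := ⟨hM⟩
  have : NeZero t := ⟨ht⟩
  let φ : K →+* AlgebraicClosure K := algebraMap K (AlgebraicClosure K)
  have : CharZero (AlgebraicClosure K) := charZero_of_injective_algebraMap φ.injective
  apply reduce (K := AlgebraicClosure K) hp hb hcard hR hn
    (A.map (MvPolynomial.map φ))
  · intro i j
    exact le_trans (Finset.sup_mono (support_map_subset _ _)) (hA i j)
  · have h1 : (A.map (MvPolynomial.map φ)).det = MvPolynomial.map φ A.det := by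
      rw [RingHom.map_det]
      rfl
    rw [h1, hdet]
    unfold Matrix.permanent
    rw [map_sum]
    refine Finset.sum_congr rfl fun σ _ => ?_
    rw [map_prod]
    refine Finset.prod_congr rfl fun i _ => ?_
    simp

lemma low_aux (n M t b k f : ℝ) (hn : 0 < n) (hb : 0 < b) (hk : 0 ≤ k)
    (h2 : n = t * (b + k) + f) (h3 : f ≤ b + k) (htbn : t * b ≤ n) (hMtb : t * b ≤ M)
    (hM0 : 0 ≤ M) (htb : 0 ≤ t * b) :
    n ^ 2 * (1 - 2 * (k / b + (b + k) / n)) ≤ M * (t * b) := by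
  have hu : n - n * k / b - (b + k) ≤ t * b := by
    have h5 : t * k ≤ n * k / b := by
      rw [le_div_iff₀ hb]
      calc t * k * b = (t * b) * k := by ring
        _ ≤ n * k := mul_le_mul_of_nonneg_right htbn hk
    nlinarith
  have h4 : n * (1 - (k / b + (b + k) / n)) = n - n * k / b - (b + k) := by
    field_simp
    ring
  set δ : ℝ := k / b + (b + k) / n with hδ
  rw [← h4] at hu
  by_cases hδ1 : δ ≤ 1
  · have h3 : 0 ≤ n * (1 - δ) := mul_nonneg hn.le (by linarith)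
    have h4 : (n * (1 - δ)) * (n * (1 - δ)) ≤ M * (t * b) :=
      mul_le_mul (le_trans hu hMtb) hu h3 hM0
    have h5 : n ^ 2 * (1 - 2 * δ) ≤ (n * (1 - δ)) * (n * (1 - δ)) := by
      have : (n * (1 - δ)) * (n * (1 - δ)) = n ^ 2 * (1 - 2 * δ) + (n * δ) ^ 2 := by ring
      rw [this]
      have := sq_nonneg (n * δ)
      linarith
    linarith
  · have h3 : n ^ 2 * (1 - 2 * δ) ≤ 0 :=
      mul_nonpos_of_nonneg_of_nonpos (by positivity) (by push Not at hδ1; linarith)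
    have h4 : 0 ≤ M * (t * b) := mul_nonneg hM0 htb
    linarith

lemma div_aux (N m M t p R C : ℝ) (hp : 0 < p) (hR : 0 < R) (q : ℕ) (B : ℝ)
    (h : (p + 1) * (R * N) ≤ (p + 1) * (R * m) +
      ((p + 1) * (R * (M * t)) + R * N +
      (p + 1) * (p * (p * N + p * R ^ (q + 1) * ((t * B + M * t) * C))))) :
    N ≤ m + M * t + N / (p + 1) + p ^ 2 / R * N + (p ^ 2 * R ^ q * C) * (t * B + M * t) := by
  have hpos : (0 : ℝ) < (p + 1) * R := by positivity
  refine le_of_mul_le_mul_left ?_ hpos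
  have e1 : (p + 1) * R * (N / (p + 1)) = R * N := by
    field_simp
  have e2 : (p + 1) * R * (p ^ 2 / R * N) = (p + 1) * (p ^ 2 * N) := by
    field_simp
  have e : (p + 1) * R * (m + M * t + N / (p + 1) + p ^ 2 / R * N +
        (p ^ 2 * R ^ q * C) * (t * B + M * t)) = (p + 1) * (R * m) +
      ((p + 1) * (R * (M * t)) + R * N +
      (p + 1) * (p * (p * N + p * R ^ (q + 1) * ((t * B + M * t) * C)))) := by
    have : (p + 1) * R * (m + M * t + N / (p + 1) + p ^ 2 / R * N +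
        (p ^ 2 * R ^ q * C) * (t * B + M * t)) = (p + 1) * R * (m + M * t) +
        (p + 1) * R * (N / (p + 1)) + (p + 1) * R * (p ^ 2 / R * N) +
        (p + 1) * R * ((p ^ 2 * R ^ q * C) * (t * B + M * t)) := by ring
    rw [this, e1, e2]
    ring
  rw [e]
  calc (p + 1) * R * N = (p + 1) * (R * N) := by ring
    _ ≤ _ := h

lemma fin_aux (n N m Mt tB D b k ε A1 A2 B' : ℝ) (hn : 0 < n) (hb : 0 < b) (hD : 0 ≤ D)
    (h1 : N ≤ m + Mt + A1 + A2 + D * (tB + Mt))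
    (hMt : Mt ≤ n ^ 2 / b) (htB : tB ≤ n * B')
    (hlow : n ^ 2 * (1 - 2 * (k / b + (b + k) / n)) ≤ N)
    (d1 : A1 ≤ n ^ 2 * (ε / 4)) (d2 : A2 ≤ n ^ 2 * (ε / 4))
    (c3 : (2 * k + 1 + D) / b ≤ ε / 4)
    (c4 : (2 * (b + k) + D * B') / n ≤ ε / 4) : (1 - ε) * n ^ 2 ≤ m := by
  have d3 : D * (tB + Mt) ≤ D * (n * B' + n ^ 2 / b) :=
    mul_le_mul_of_nonneg_left (add_le_add htB hMt) hD
  have e1 : n ^ 2 * ((2 * k + 1 + D) / b) ≤ n ^ 2 * (ε / 4) :=
    mul_le_mul_of_nonneg_left c3 (by positivity)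
  have e2 : n ^ 2 * ((2 * (b + k) + D * B') / n) ≤ n ^ 2 * (ε / 4) :=
    mul_le_mul_of_nonneg_left c4 (by positivity)
  have e3 : n ^ 2 * (1 - 2 * (k / b + (b + k) / n)) -
      n ^ 2 / b - D * (n * B' + n ^ 2 / b) =
      n ^ 2 - n ^ 2 * ((2 * k + 1 + D) / b) - n ^ 2 * ((2 * (b + k) + D * B') / n) := by
    field_simp
    ring
  have e4 : (1 - ε) * n ^ 2 = n ^ 2 - n ^ 2 * (ε / 4) - n ^ 2 * (ε / 4) -
      n ^ 2 * (ε / 4) - n ^ 2 * (ε / 4) := by ring
  rw [e4]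
  linarith

theorem of_bound (ε : ℝ) (hε : 0 < ε) : ∃ n₀ : ℕ, ∀ n m : ℕ, n₀ ≤ n →
    (∀ p R b : ℕ, 1 ≤ p → 0 < R → p + 1 ≤ b → Bound n m p R b) →
    (1 - ε) * (n : ℝ) ^ 2 ≤ m := by
  obtain ⟨p, hp⟩ := exists_nat_ge (4 / ε)
  have hp0 : (0 : ℝ) < p := lt_of_lt_of_le (by positivity) hp
  have hp1 : 1 ≤ p := by exact_mod_cast Nat.one_le_iff_ne_zero.2 (by
    rintro rfl; simp at hp0)
  obtain ⟨R, hR⟩ := exists_nat_ge (4 * (p : ℝ) ^ 2 / ε)
  have hR0 : (0 : ℝ) < R := lt_of_lt_of_le (by positivity) hR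
  have hR1 : 0 < R := by exact_mod_cast hR0
  set D : ℝ := (p : ℝ) ^ 2 * (R : ℝ) ^ p * (cnt (p + 1) : ℝ) with hD
  have hD0 : 0 ≤ D := by positivity
  obtain ⟨b0, hb0⟩ := exists_nat_ge ((2 * ((p : ℝ) + 1) + 1 + D) * 4 / ε)
  set b : ℕ := max b0 (p + 1) with hbdef
  have hbp : p + 1 ≤ b := le_max_right _ _
  have hbR : (2 * ((p : ℝ) + 1) + 1 + D) * 4 / ε ≤ b :=
    le_trans hb0 (by exact_mod_cast le_max_left _ _)
  have hbpos : (0 : ℝ) < b := by
    have : 0 < b := by omega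
    exact_mod_cast this
  obtain ⟨n₁, hn₁⟩ := exists_nat_ge ((2 * ((b : ℝ) + (p + 1)) + D * (b : ℝ) ^ p) * 4 / ε)
  refine ⟨max n₁ (b + (p + 1)), ?_⟩
  intro n m hn hB
  have hnb : b + (p + 1) ≤ n := le_trans (le_max_right _ _) hn
  have hnR : (2 * ((b : ℝ) + (p + 1)) + D * (b : ℝ) ^ p) * 4 / ε ≤ n :=
    le_trans hn₁ (by exact_mod_cast le_trans (le_max_left _ _) hn)
  -- the parameters
  set t : ℕ := n / (b + (p + 1)) with ht
  set f : ℕ := n % (b + (p + 1)) with hf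
  have hnt : n = t * (b + (p + 1)) + f := by
    rw [ht, hf, mul_comm]; exact (Nat.div_add_mod n (b + (p + 1))).symm
  have hflt : f < b + (p + 1) := Nat.mod_lt _ (by omega)
  have ht1 : 1 ≤ t := (Nat.one_le_div_iff (by omega)).2 hnb
  have hexp : t * (b + (p + 1)) = t * b + t * p + t := by ring
  obtain ⟨M, hM⟩ : ∃ M, M = t * b + t + f - 1 := ⟨_, rfl⟩
  have htb : 1 ≤ t * b := Nat.mul_pos ht1 (by omega)
  have hMcard : M + (t * p + 1) = t * (b + (p + 1)) + f := by omega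
  have hMtb : t * b ≤ M := by omega
  have hMn : M ≤ n := by omega
  have hM0 : M ≠ 0 := by omega
  have key := hB p R b hp1 hR1 hbp M t f hM0 (by omega) hMcard hnt
  -- real numbers
  have key' : ((p : ℝ) + 1) * (R * (M * (t * b))) ≤ (p + 1) * (R * m) +
      ((p + 1) * (R * (M * t)) + R * (M * (t * b)) +
      (p + 1) * (p * (p * (M * (t * b)) +
        p * R ^ (p + 1) * ((t * b ^ (p + 1) + M * t) * cnt (p + 1))))) := by
    exact_mod_cast key
  have h1 := div_aux ((M : ℝ) * (t * b)) m M t p R (cnt (p + 1)) hp0 hR0 p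
    ((b : ℝ) ^ (p + 1)) key'
  have hnR0 : (0 : ℝ) < n := by
    have : 0 < n := by omega
    exact_mod_cast this
  have ht0 : (0 : ℝ) < t := by exact_mod_cast ht1
  have htbn : (t : ℝ) * b ≤ n := by
    have : t * b ≤ n := by omega
    exact_mod_cast this
  have hMn' : (M : ℝ) ≤ n := by exact_mod_cast hMn
  have hMtb' : (t : ℝ) * b ≤ M := by exact_mod_cast hMtb
  have hM0' : (0 : ℝ) ≤ M := by positivity
  have hNn : (M : ℝ) * (t * b) ≤ (n : ℝ) ^ 2 := by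
    rw [pow_two]
    exact mul_le_mul hMn' htbn (by positivity) (by positivity)
  have hN0 : 0 ≤ (M : ℝ) * (t * b) := by positivity
  have hMt : (M : ℝ) * t ≤ (n : ℝ) ^ 2 / b := by
    rw [le_div_iff₀ hbpos]
    calc (M : ℝ) * t * b = (M : ℝ) * (t * b) := by ring
      _ ≤ _ := hNn
  have htb' : (t : ℝ) * b ^ (p + 1) ≤ n * b ^ p := by
    calc (t : ℝ) * b ^ (p + 1) = (t * b) * b ^ p := by ring
      _ ≤ n * b ^ p := mul_le_mul_of_nonneg_right htbn (by positivity)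
  have hNlow := low_aux n M t b ((p : ℝ) + 1) f hnR0 hbpos (by positivity)
    (by exact_mod_cast hnt) (by exact_mod_cast hflt.le) htbn hMtb' hM0' (by positivity)
  -- the choices
  have c1 : (1 : ℝ) / (p + 1) ≤ ε / 4 := by
    rw [div_le_iff₀ (by positivity)]
    have : 4 / ε ≤ p := hp
    rw [div_le_iff₀ hε] at this
    linarith
  have c2 : (p : ℝ) ^ 2 / R ≤ ε / 4 := by
    rw [div_le_iff₀ hR0]
    rw [div_le_iff₀ hε] at hR
    linarith
  have c3 : (2 * ((p : ℝ) + 1) + 1 + D) / b ≤ ε / 4 := by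
    rw [div_le_iff₀ hbpos]
    rw [div_le_iff₀ hε] at hbR
    linarith
  have c4 : (2 * ((b : ℝ) + (p + 1)) + D * (b : ℝ) ^ p) / n ≤ ε / 4 := by
    rw [div_le_iff₀ hnR0]
    rw [div_le_iff₀ hε] at hnR
    linarith
  have d1 : (M : ℝ) * (t * b) / (p + 1) ≤ (n : ℝ) ^ 2 * (ε / 4) := by
    calc (M : ℝ) * (t * b) / (p + 1) = (M : ℝ) * (t * b) * (1 / (p + 1)) := by ring
      _ ≤ (n : ℝ) ^ 2 * (ε / 4) := mul_le_mul hNn c1 (by positivity) (by positivity)
  have d2 : p ^ 2 / R * ((M : ℝ) * (t * b)) ≤ (n : ℝ) ^ 2 * (ε / 4) := by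
    calc p ^ 2 / R * ((M : ℝ) * (t * b)) = (M : ℝ) * (t * b) * (p ^ 2 / R) := by ring
      _ ≤ (n : ℝ) ^ 2 * (ε / 4) := mul_le_mul hNn c2 (by positivity) (by positivity)
  exact fin_aux n _ m _ _ D b ((p : ℝ) + 1) ε _ _ _ hnR0 hbpos hD0 h1 hMt htb' hNlow d1 d2
    c3 c4

theorem dc_perm_asymp.{u} (ε : ℝ) (hε : 0 < ε) : ∃ n₀ : ℕ, ∀ (K : Type u) [Field K] [CharZero K]
    (n m : ℕ), n₀ ≤ n → ∀ A : Matrix (Fin m) (Fin m) (MvPolynomial (Fin n × Fin n) K),
    (∀ i j, (A i j).totalDegree ≤ 1) →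
    A.det = (Matrix.of fun i j : Fin n =>
      (X (i, j) : MvPolynomial (Fin n × Fin n) K)).permanent →
    (1 - ε) * (n : ℝ) ^ 2 ≤ m := by
  obtain ⟨n₀, h⟩ := of_bound ε hε
  exact ⟨n₀, fun K _ _ n m hn A hA hdet => h n m hn fun p R b hp hR hb =>
    ofClosed A hA hdet hp hR hb⟩

end Pool.Agent.Helper33x.DC
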