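import Pool.Agent.Helper33x.DC.BorderSub

/-!
# The border determinantal complexity of the permanent is at least `(1 - o(1)) n²`
-/

namespace Pool.Agent.Helper33x.DC

open Function Module Submodule IsLocalRing H1DC

section corner

variable {K : Type*} [Field K] [CharZero K] {M t b f p : ℕ}

/-- the permanent on the line through the base point in the direction of a main entry -/
lemma inj_full_corner (hcard : M + (t * p + 1) = t * (b + (p + 1)) + f)
    (c : Fin (p + 1) → K)
    (hc : ∀ β ≤ p + 1, ∀ m ≤ p + 1,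
      ((1 + Polynomial.X) ^ (b - β) * ∏ r, (1 + Polynomial.C (c r) * Polynomial.X) :
        Polynomial K).coeff m =
        ((1 + Polynomial.X) ^ (p + 1 - β) - Polynomial.X ^ (p + 1) : Polynomial K).coeff m)
    (r₀ : Fin M) (q₀ : Fin t × Fin b) (s : K) :
    inj (full c (Pi.single (r₀, q₀) s) : Fin M ⊕ Spec t p → Col t b (p + 1) f → K) =
      s * (((M - 1).factorial : K) * Xhat K p (cntc fun _ : Fin 1 => q₀.1)) := by
  classical
  have hz := inj_full_zero hcard c hc
  have h0 : ∀ (r : Fin M) (x : Col t b (p + 1) f), extM (Pi.single (r₀, q₀) s) r x =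
      s * extM (Pi.single (r₀, q₀) (1 : K)) r x := by
    intro r x
    have h1 : (Pi.single (r₀, q₀) s : Fin M × (Fin t × Fin b) → K) =
        s • Pi.single (r₀, q₀) (1 : K) := by
      rw [← Pi.single_smul, smul_eq_mul, mul_one]
    have h2 := (extL K r x).map_smul s (Pi.single (r₀, q₀) (1 : K))
    rw [← h1] at h2
    exact h2
  have h0' : ∀ (r : Fin M) (x : Col t b (p + 1) f), r ≠ r₀ →
      extM (Pi.single (r₀, q₀) (1 : K)) r x = 0 := by
    intro r x hr
    rcases x with ⟨a, d | d⟩ | x
    · simp only [extM, Sum.elim_inl]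
      rw [Pi.single_eq_of_ne]
      intro h
      exact hr (Prod.mk.inj h).1
    · rfl
    · rfl
  have h3 := sum_extend (K := K) (T := Spec t p) (γ := Col t b (p + 1) f) (M := M) (j := 1)
    (fun _ => r₀) (injective_of_subsingleton _)
    (fun _ => extM (Pi.single (r₀, q₀) (1 : K)) r₀) (spec c) (by
      rw [Fintype.card_sum, Fintype.card_sum, Fintype.card_prod, Fintype.card_prod,
        Fintype.card_sum]
      simp only [Fintype.card_fin, Fintype.card_unit]
      exact hcard)
  have h4 := sum_cols (f := f) (t := t) c hc (by omega : 1 ≤ p + 1)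
    (fun _ : Fin 1 => Pi.single (r₀, q₀) (1 : K)) (fun _ => r₀)
  have h5 : ∑ κ : Fin 1 → Fin t × Fin b, (if Injective κ then
        (∏ s : Fin 1, (Pi.single (r₀, q₀) (1 : K) : Fin M × (Fin t × Fin b) → K) (r₀, κ s)) *
          Xhat K p (cntc fun s => (κ s).1) else 0) = Xhat K p (cntc fun _ : Fin 1 => q₀.1) := by
    rw [Finset.sum_eq_single (fun _ => q₀)]
    · rw [if_pos (injective_of_subsingleton _)]
      simp
    · intro κ _ hκ
      rw [if_pos (injective_of_subsingleton _), Fin.prod_univ_one, Pi.single_eq_of_ne, zero_mul]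
      intro h
      apply hκ
      funext s
      rw [Subsingleton.elim s 0]
      exact (Prod.mk.inj h).2
    · intro h
      exact absurd (Finset.mem_univ _) h
  rw [h4, h5] at h3
  rw [← h3, Finset.mul_sum]
  have h6 : inj (full c (Pi.single (r₀, q₀) s) : Fin M ⊕ Spec t p → Col t b (p + 1) f → K) =
      inj (full c 0 : Fin M ⊕ Spec t p → Col t b (p + 1) f → K) +
      ∑ g : Fin M ⊕ Spec t p → Col t b (p + 1) f,
        s * ((if Injective g then ∏ q, spec c q (g (Sum.inr q)) else 0) *
          ∏ _s : Fin 1, extM (Pi.single (r₀, q₀) (1 : K)) r₀ (g (Sum.inl r₀))) := by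
    unfold inj
    rw [← Finset.sum_add_distrib]
    refine Finset.sum_congr rfl fun g _ => ?_
    by_cases hg : Injective g
    · rw [if_pos hg, if_pos hg, if_pos hg, Fintype.prod_sum_type (fun r => full c _ r (g r)),
        Fintype.prod_sum_type (fun r => full c 0 r (g r)), Fin.prod_univ_one]
      have e1 : ∏ r : Fin M, full c (Pi.single (r₀, q₀) s) (Sum.inl r : Fin M ⊕ Spec t p)
          (g (Sum.inl r)) = 1 + s * extM (Pi.single (r₀, q₀) (1 : K)) r₀ (g (Sum.inl r₀)) := by
        rw [Finset.prod_eq_single r₀]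
        · simp only [full, Sum.elim_inl, h0]
        · intro r _ hr
          simp only [full, Sum.elim_inl, h0, h0' r _ hr, mul_zero, add_zero]
        · intro h
          exact absurd (Finset.mem_univ _) h
      have e2 : ∏ r : Fin M, full c (0 : Fin M × (Fin t × Fin b) → K)
          (Sum.inl r : Fin M ⊕ Spec t p) (g (Sum.inl r)) = 1 := by
        apply Finset.prod_eq_one
        intro r _
        simp only [full, Sum.elim_inl]
        have : extM (0 : Fin M × (Fin t × Fin b) → K) r (g (Sum.inl r)) = 0 :=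
          (extL K r (g (Sum.inl r))).map_zero
        rw [this, add_zero]
      rw [e1, e2]
      have e3 : ∏ q : Spec t p, full c (Pi.single (r₀, q₀) s)
          (Sum.inr q : Fin M ⊕ Spec t p) (g (Sum.inr q)) = ∏ q, spec c q (g (Sum.inr q)) := rfl
      have e4 : ∏ q : Spec t p, full c (0 : Fin M × (Fin t × Fin b) → K)
          (Sum.inr q : Fin M ⊕ Spec t p) (g (Sum.inr q)) = ∏ q, spec c q (g (Sum.inr q)) := rfl
      rw [e3, e4]
      ring
    · rw [if_neg hg, if_neg hg, if_neg hg, zero_mul, mul_zero, add_zero]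
  rw [h6, hz, zero_add]
  refine Finset.sum_congr rfl fun g _ => ?_
  by_cases hg : Injective g
  · simp only [if_pos hg]
  · simp only [if_neg hg]

end corner

/-- the bound for a linear space of zeros through the base point -/
theorem bound_of_subspace {K : Type*} [Field K] [CharZero K] [IsAlgClosed K] {M t b f p : ℕ}
    [NeZero M] [NeZero t] (hp : 1 ≤ p)
    (hb : p + 1 ≤ b) (hcard : M + (t * p + 1) = t * (b + (p + 1)) + f) {R : ℕ} (hR : 0 < R)
    {n m : ℕ} (hn : n = t * (b + (p + 1)) + f)
    (H : ∀ (x₀ : Fin n × Fin n → K) (q₀ : Fin n × Fin n) (d : K), d ≠ 0 →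
      (∀ s, (Matrix.of fun i j : Fin n => x₀ (i, j) +
        if (i, j) = q₀ then s else 0).permanent = s * d) →
      ∃ W : Submodule K (Fin n × Fin n → K), Fintype.card (Fin n × Fin n) ≤ finrank K W + m ∧
      ∀ w ∈ W, (Matrix.of fun i j : Fin n => x₀ (i, j) + w (i, j)).permanent = 0) :
    (p + 1) * (R * (M * (t * b))) ≤ (p + 1) * (R * m) +
      ((p + 1) * (R * (M * t)) + R * (M * (t * b)) +
      (p + 1) * (p * (p * (M * (t * b)) +
        p * R ^ (p + 1) * ((t * b ^ (p + 1) + M * t) * cnt (p + 1))))) := by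
  classical
  have : NeZero b := ⟨by omega⟩
  obtain ⟨c, hc⟩ := exists_weights (K := K) (p + 1) b (by omega) hb
  have er : Fin n ≃ Fin M ⊕ Spec t p := Fintype.equivOfCardEq (by
    rw [Fintype.card_sum, Fintype.card_sum, Fintype.card_prod]
    simp only [Fintype.card_fin, Fintype.card_unit]
    omega)
  have ec : Fin n ≃ Col t b (p + 1) f := Fintype.equivOfCardEq (by
    rw [Fintype.card_sum, Fintype.card_prod, Fintype.card_sum]
    simp only [Fintype.card_fin]
    exact hn)
  let r₀ : Fin M := 0
  let q₀ : Fin t × Fin b := (0, 0)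
  have hd : ((M - 1).factorial : K) * Xhat K p (cntc fun _ : Fin 1 => q₀.1) ≠ 0 := by
    refine mul_ne_zero (Nat.cast_ne_zero.mpr (Nat.factorial_ne_zero _)) ?_
    apply Xhat_single_ne q₀.1 1 le_rfl
    · simp [cntc]
    · intro a' ha'
      simp [cntc, Ne.symm ha']
  have hZ : ∀ (s : K) (i j : Fin n), extZ K er ec (Pi.single (r₀, q₀) s) (i, j) =
      if (i, j) = (er.symm (Sum.inl r₀), ec.symm (mainCol q₀)) then s else 0 := by
    intro s i j
    rw [extZ_apply]
    by_cases hij : (i, j) = (er.symm (Sum.inl r₀), ec.symm (mainCol q₀))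
    · rw [if_pos hij]
      obtain ⟨rfl, rfl⟩ := Prod.mk.inj hij
      simp only [Equiv.apply_symm_apply, Sum.elim_inl, extM_mainCol, Pi.single_eq_same]
    · rw [if_neg hij]
      rcases hr : er i with r | r
      · simp only [Sum.elim_inl]
        by_cases hx : ec j ∈ Set.range (mainCol : Fin t × Fin b → Col t b (p + 1) f)
        · obtain ⟨q, hq⟩ := hx
          rw [← hq, extM_mainCol, Pi.single_eq_of_ne]
          intro h
          apply hij
          obtain ⟨h1, h2⟩ := Prod.mk.inj h
          rw [← h1, ← h2, hq, ← hr]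
          simp
        · exact extM_of_notMem _ _ _ hx
      · rfl
  obtain ⟨W', hdim, hW'⟩ := H (basePt er ec c) (er.symm (Sum.inl r₀), ec.symm (mainCol q₀)) _ hd
    (by
      intro s
      rw [← inj_full_corner hcard c hc r₀ q₀ s, ← permanent_eq_inj er ec]
      congr 2
      funext i j
      rw [full_add, hZ]
      rfl)
  have h1 := le_finrank_comap (extZ K er ec) W'
  rw [Module.finrank_fintype_fun_eq_card, Module.finrank_fintype_fun_eq_card] at h1
  have hcX : Fintype.card (Fin M × (Fin t × Fin b)) = M * (t * b) := by simp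
  rw [hcX] at h1
  have h2 := dim_main (K := K) (R := R) hp hcard c hc (W'.comap (extZ K er ec)) (by
    intro w hw
    rw [← permanent_eq_inj er ec (full c w)]
    have h3 := hW' _ hw
    rw [← h3]
    congr 2
    funext i j
    rw [full_add]
    rfl) hR
  have h4 : M * (t * b) ≤ finrank K (W'.comap (extZ K er ec)) + m := by omega
  have h5 : (p + 1) * (R * (M * (t * b))) ≤
      (p + 1) * (R * finrank K (W'.comap (extZ K er ec))) + (p + 1) * (R * m) := by
    rw [← Nat.mul_add, ← Nat.mul_add]
    exact Nat.mul_le_mul_left _ (Nat.mul_le_mul_left _ h4)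
  omega

theorem core_bound {L : Type*} [Field L] [IsAlgClosed L] (O : ValuationSubring L)
    [CharZero (ResidueField O)] (n m : ℕ) (F : MvPolynomial (Fin n × Fin n) O)
    (hF : MvPolynomial.map (residue O) F = permP n (ResidueField O))
    (A : Matrix (Fin m) (Fin m) (MvPolynomial (Fin n × Fin n) L))
    (hA : ∀ i j, (A i j).totalDegree ≤ 1)
    (hdet : A.det = MvPolynomial.map O.subtype F)
    {p R b : ℕ} (hp : 1 ≤ p) (hR : 0 < R) (hb : p + 1 ≤ b) : Bound n m p R b := by
  intro M t f hM ht hcard hn
  have : NeZero M := ⟨hM⟩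
  have : NeZero t := ⟨ht⟩
  have : IsAlgClosed (ResidueField O) := isAlgClosed_residue O
  apply bound_of_subspace (K := ResidueField O) hp hb hcard hR hn
  intro x₀ q₀ d hd hs
  obtain ⟨W, hW1, hW2⟩ := subspace_of_limit O F _ hF A hA hdet x₀ q₀ d hd (by
    intro s
    rw [← hs s]
    exact Pool.Agent.Helper33x.DC.eval_perm (K := ResidueField O)
      (fun q => x₀ q + if q = q₀ then s else 0))
  refine ⟨W, hW1, fun w hw => ?_⟩
  rw [← hW2 w hw]
  exact (Pool.Agent.Helper33x.DC.eval_perm (K := ResidueField O) (fun q => x₀ q + w q)).symm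

theorem border_bound {R K : Type*} [CommRing R] [IsLocalRing R] [CharZero (ResidueField R)]
    [Field K] (ι : R →+* K) (n m : ℕ) (F : MvPolynomial (Fin n × Fin n) R)
    (hF : MvPolynomial.map (residue R) F = permP n (ResidueField R))
    (A : Matrix (Fin m) (Fin m) (MvPolynomial (Fin n × Fin n) K))
    (hA : ∀ i j, (A i j).totalDegree ≤ 1)
    (hdet : A.det = MvPolynomial.map ι F)
    {p R' b : ℕ} (hp : 1 ≤ p) (hR : 0 < R') (hb : p + 1 ≤ b) : Bound n m p R' b := by
  let L := AlgebraicClosure K
  obtain ⟨O, h, hloc⟩ := IsLocalRing.exists_factor_valuationRing ((algebraMap K L).comp ι)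
  let f : R →+* O := ((algebraMap K L).comp ι).codRestrict O.toSubring h
  have hf : IsLocalHom f := hloc
  have hfι : O.subtype.comp f = (algebraMap K L).comp ι := by
    ext x; rfl
  have hinj : Function.Injective (ResidueField.map f) := RingHom.injective _
  have hchar : CharZero (ResidueField O) := charZero_of_injective_ringHom hinj
  apply core_bound O n m (MvPolynomial.map f F) _ (A.map (MvPolynomial.map (algebraMap K L)))
    _ _ hp hR hb
  · rw [MvPolynomial.map_map, ← ResidueField.map_comp_residue, ← MvPolynomial.map_map, hF,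
      map_permP]
  · intro i j
    rw [Matrix.map_apply]
    exact le_trans (Finset.sup_mono (MvPolynomial.support_map_subset _ _)) (hA i j)
  · have e1 : (A.map (MvPolynomial.map (algebraMap K L))).det =
        MvPolynomial.map (algebraMap K L) A.det := by
      rw [RingHom.map_det]; rfl
    rw [e1, hdet, MvPolynomial.map_map, MvPolynomial.map_map, hfι]

theorem border_bound' {R κ K : Type*} [CommRing R] [Field κ] [CharZero κ] [Field K]
    (φ : R →+* κ) (ι : R →+* K) (hφ : IsLocalHom φ) (n m : ℕ)
    (F : MvPolynomial (Fin n × Fin n) R)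
    (hF : MvPolynomial.map φ F = permP n κ)
    (A : Matrix (Fin m) (Fin m) (MvPolynomial (Fin n × Fin n) K))
    (hA : ∀ i j, (A i j).totalDegree ≤ 1)
    (hdet : A.det = MvPolynomial.map ι F)
    {p R' b : ℕ} (hp : 1 ≤ p) (hR : 0 < R') (hb : p + 1 ≤ b) : Bound n m p R' b := by
  have hloc : IsLocalRing R := RingHom.domain_isLocalRing φ
  let ψ : ResidueField R →+* κ := ResidueField.lift φ
  have hψ : ψ.comp (residue R) = φ := by
    ext x; rfl
  have hchar : CharZero (ResidueField R) := RingHom.charZero ψ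
  apply border_bound ι n m F _ A hA hdet hp hR hb
  apply MvPolynomial.map_injective ψ (RingHom.injective ψ)
  rw [MvPolynomial.map_map, hψ, hF, map_permP]

theorem border_ratFunc {k : Type*} [Field k] [CharZero k] (n m : ℕ)
    (A : Matrix (Fin m) (Fin m) (MvPolynomial (Fin n × Fin n) (RatFunc k)))
    (hA : ∀ i j, (A i j).totalDegree ≤ 1)
    (h : ∀ d, (A.det.coeff d).denom.eval 0 ≠ 0 ∧
      (A.det.coeff d).eval (RingHom.id k) 0 = (permP n k).coeff d)
    {p R' b : ℕ} (hp : 1 ≤ p) (hR : 0 < R') (hb : p + 1 ≤ b) : Bound n m p R' b := by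
  obtain ⟨F, hF⟩ := exists_lift (localAtZero k).subtype A.det (fun d => ⟨⟨_, (h d).1⟩, rfl⟩)
  apply border_bound' (evalZero k) (localAtZero k).subtype inferInstance n m F _ A hA hF.symm
    hp hR hb
  ext d
  rw [MvPolynomial.coeff_map, ← (h d).2, ← hF, MvPolynomial.coeff_map]
  rfl

open Filter Topology in
theorem border_limit (n m : ℕ)
    (A : ℕ → Matrix (Fin m) (Fin m) (MvPolynomial (Fin n × Fin n) ℂ))
    (hA : ∀ t i j, (A t i j).totalDegree ≤ 1)
    (h : ∀ d, Tendsto (fun t => (A t).det.coeff d) atTop (𝓝 ((permP n ℂ).coeff d)))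
    {p R' b : ℕ} (hp : 1 ≤ p) (hR : 0 < R') (hb : p + 1 ≤ b) : Bound n m p R' b := by
  classical
  -- the matrix over the ring of sequences
  let S := ℕ → ℂ
  let AS : Matrix (Fin m) (Fin m) (MvPolynomial (Fin n × Fin n) S) := Matrix.of fun i j =>
    MvPolynomial.C (fun t => (A t i j).coeff 0) +
      ∑ s, MvPolynomial.C (fun t => (A t i j).coeff (Finsupp.single s 1)) * MvPolynomial.X s
  have hev : ∀ t, AS.map (MvPolynomial.map (Pi.evalRingHom (fun _ : ℕ => ℂ) t)) = A t := by
    intro t
    ext1 i j
    rw [Matrix.map_apply]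
    apply MvPolynomial.funext
    intro x
    rw [affine_eval _ (hA t i j) x]
    simp [AS]
  have hdet : ∀ t d, (AS.det.coeff d) t = (A t).det.coeff d := by
    intro t d
    rw [← hev t]
    have e1 : (AS.map (MvPolynomial.map (Pi.evalRingHom (fun _ : ℕ => ℂ) t))).det =
        MvPolynomial.map (Pi.evalRingHom (fun _ : ℕ => ℂ) t) AS.det := by
      rw [RingHom.map_det]; rfl
    rw [e1, MvPolynomial.coeff_map]
    rfl
  let toG : S →+* GC := Germ.coeRingHom _
  let AG : Matrix (Fin m) (Fin m) (MvPolynomial (Fin n × Fin n) GC) :=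
    AS.map (MvPolynomial.map toG)
  have hAG : ∀ i j, (AG i j).totalDegree ≤ 1 := by
    intro i j
    refine le_trans (Finset.sup_mono (MvPolynomial.support_map_subset _ _)) ?_
    change (AS i j).totalDegree ≤ 1
    simp only [AS, Matrix.of_apply]
    refine le_trans (MvPolynomial.totalDegree_add _ _) (max_le ?_ ?_)
    · rw [MvPolynomial.totalDegree_C]; exact Nat.zero_le _
    · refine le_trans (MvPolynomial.totalDegree_finsetSum _ _) (Finset.sup_le fun s _ => ?_)
      refine le_trans (MvPolynomial.totalDegree_mul _ _) ?_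
      rw [MvPolynomial.totalDegree_C, MvPolynomial.totalDegree_X]
  have hdetG : AG.det = MvPolynomial.map toG AS.det := by
    rw [RingHom.map_det]; rfl
  have hcoef : ∀ d, (AG.det.coeff d).Tendsto (𝓝 ((permP n ℂ).coeff d)) := by
    intro d
    rw [hdetG, MvPolynomial.coeff_map]
    change Germ.Tendsto ((AS.det.coeff d : S) : GC) _
    rw [Germ.coe_tendsto]
    have e1 : AS.det.coeff d = fun t => (A t).det.coeff d := funext fun t => hdet t d
    rw [e1]
    exact (h d).mono_left Nat.hyperfilter_le_atTop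
  obtain ⟨F, hF⟩ := exists_lift convGerm.subtype AG.det (fun d => ⟨⟨_, _, hcoef d⟩, rfl⟩)
  apply border_bound' limGerm convGerm.subtype inferInstance n m F _ AG hAG hF.symm hp hR hb
  ext d
  rw [MvPolynomial.coeff_map]
  apply limGerm_eq
  have := hcoef d
  rw [← hF, MvPolynomial.coeff_map] at this
  exact this

end Pool.Agent.Helper33x.DC
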