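import Pool.Agent.Helper1x.DC.BorderRat
import Pool.Agent.Helper33x.DC.Arith

/-!
# Linear spaces of zeros for limits of determinants of affine-linear matrices
-/

namespace Pool.Agent.Helper33x.DC

open Finset Submodule Module IsLocalRing H1DC

/-- the residue field of a valuation ring of an algebraically closed field -/
theorem isAlgClosed_residue {L : Type*} [Field L] [IsAlgClosed L] (O : ValuationSubring L) :
    IsAlgClosed (ResidueField O) := by
  apply IsAlgClosed.of_exists_root
  intro p hp hirr
  have hl : p ∈ Polynomial.lifts (residue O) := by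
    rw [Polynomial.lifts_iff_coeff_lifts]
    intro k
    exact residue_surjective _
  obtain ⟨q, hq, hdeg, hmon⟩ := Polynomial.lifts_and_degree_eq_and_monic hl hp
  have hd : (q.map (algebraMap O L)).degree ≠ 0 := by
    rw [hmon.degree_map, hdeg]
    exact (Polynomial.degree_pos_of_irreducible hirr).ne'
  obtain ⟨z, hz⟩ := IsAlgClosed.exists_root _ hd
  have hint : IsIntegral O z := by
    refine ⟨q, hmon, ?_⟩
    rw [← Polynomial.eval_map]
    exact hz
  obtain ⟨y, hy⟩ := IsIntegrallyClosed.isIntegral_iff.1 hint
  refine ⟨residue O y, ?_⟩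
  have h1 : q.eval y = 0 := by
    have h2 : (q.map (algebraMap O L)).eval (algebraMap O L y) = 0 := by
      rw [hy]; exact hz
    rw [Polynomial.eval_map_algebraMap, Polynomial.aeval_algebraMap_apply] at h2
    have h3 := (map_eq_zero_iff (algebraMap O L) (FaithfulSMul.algebraMap_injective O L)).1 h2
    simpa using h3
  rw [← hq, Polynomial.eval_map, Polynomial.eval₂_hom, h1, map_zero]

/-- **Linear spaces of zeros at smooth zeros of limits of determinants.** -/
theorem subspace_of_limit {L σ : Type*} [Field L] [IsAlgClosed L] [Fintype σ] [DecidableEq σ]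
    (O : ValuationSubring L) [CharZero (ResidueField O)] {m : ℕ} (F : MvPolynomial σ O)
    (P : MvPolynomial σ (ResidueField O)) (hF : MvPolynomial.map (residue O) F = P)
    (A : Matrix (Fin m) (Fin m) (MvPolynomial σ L)) (hA : ∀ i j, (A i j).totalDegree ≤ 1)
    (hdet : A.det = MvPolynomial.map O.subtype F) (x₀ : σ → ResidueField O) (q₀ : σ)
    (d : ResidueField O) (hd : d ≠ 0)
    (hs : ∀ s, MvPolynomial.eval (fun q => x₀ q + if q = q₀ then s else 0) P = s * d) :
    ∃ W : Submodule (ResidueField O) (σ → ResidueField O),
      Fintype.card σ ≤ finrank (ResidueField O) W + m ∧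
      ∀ w ∈ W, MvPolynomial.eval (fun q => x₀ q + w q) P = 0 := by
  classical
  choose b hb using fun q => residue_surjective (R := O) (x₀ q)
  -- the one-variable polynomial
  let g : σ → Polynomial O := fun q => Polynomial.C (b q) + if q = q₀ then Polynomial.X else 0
  let p : Polynomial O := MvPolynomial.eval₂ Polynomial.C g F
  have hpeval : ∀ r : O, p.eval r =
      MvPolynomial.eval (fun q => b q + if q = q₀ then r else 0) F := by
    intro r
    change Polynomial.evalRingHom r (MvPolynomial.eval₂Hom Polynomial.C g F) = _
    rw [MvPolynomial.map_eval₂Hom]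
    have e1 : (Polynomial.evalRingHom r).comp Polynomial.C = RingHom.id O := by
      ext x; simp
    rw [e1]
    change MvPolynomial.eval₂ _ _ F = MvPolynomial.eval₂ _ _ F
    congr 1
    funext q
    simp only [g, Polynomial.coe_evalRingHom, Polynomial.eval_add, Polynomial.eval_C]
    split_ifs <;> simp
  have hpmap : p.map (residue O) = Polynomial.C d * Polynomial.X := by
    apply Polynomial.funext
    intro s
    have hinf : Infinite (ResidueField O) := inferInstance
    have e1 : (p.map (residue O)).eval s =
        MvPolynomial.eval (fun q => x₀ q + if q = q₀ then s else 0)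
          (MvPolynomial.map (residue O) F) := by
      rw [MvPolynomial.eval_map, Polynomial.eval_map]
      change Polynomial.eval₂RingHom (residue O) s (MvPolynomial.eval₂Hom Polynomial.C g F) = _
      rw [MvPolynomial.map_eval₂Hom]
      have e2 : (Polynomial.eval₂RingHom (residue O) s).comp Polynomial.C = residue O := by
        ext x; simp
      rw [e2]
      change MvPolynomial.eval₂ _ _ F = MvPolynomial.eval₂ _ _ F
      congr 1
      funext q
      simp only [g, Polynomial.coe_eval₂RingHom, Polynomial.eval₂_add, Polynomial.eval₂_C, hb]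
      split_ifs <;> simp
    rw [e1, hF, hs]
    simp only [Polynomial.eval_mul, Polynomial.eval_C, Polynomial.eval_X]
    ring
  have hp0 : p.coeff 0 ∈ maximalIdeal O := by
    rw [← residue_eq_zero_iff, ← Polynomial.coeff_map, hpmap]
    simp
  have hp1 : IsUnit (p.coeff 1) := by
    by_contra hnu
    have h2 : p.coeff 1 ∈ maximalIdeal O := (mem_maximalIdeal _).mpr hnu
    rw [← residue_eq_zero_iff, ← Polynomial.coeff_map, hpmap] at h2
    simp only [Polynomial.coeff_C_mul, Polynomial.coeff_X_one, mul_one] at h2
    exact hd h2
  obtain ⟨r, hr, hr0⟩ := root_in_max O p hp0 hp1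
  let x : σ → O := fun q => b q + if q = q₀ then r else 0
  have hx0 : MvPolynomial.eval x F = 0 := by rw [← hpeval r, hr0]
  have hxres : ∀ q, residue O (x q) = x₀ q := by
    intro q
    have hr' : residue O r = 0 := (residue_eq_zero_iff _).mpr hr
    simp only [x, map_add, hb]
    split_ifs
    · rw [hr', add_zero]
    · rw [map_zero, add_zero]
  have hcoe : ∀ y : σ → O,
      MvPolynomial.eval (fun q => (y q : L)) A.det = ((MvPolynomial.eval y F : O) : L) := by
    intro y
    rw [hdet, MvPolynomial.eval_map]
    have := MvPolynomial.eval₂_comp_left O.subtype (RingHom.id O) y F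
    rw [RingHom.comp_id] at this
    exact this.symm
  obtain ⟨W, hdim, hW⟩ := exists_subspace A hA (fun q => (x q : L)) (by
    rw [hcoe x, hx0]; rfl)
  have hred := finrank_red O (finrank L W) W le_rfl
  refine ⟨redSub O W, by omega, ?_⟩
  rintro u ⟨w, hw, hwu⟩
  have h1 := hW _ hw
  have h2 : MvPolynomial.eval (fun q => x q + w q) F = 0 := by
    have h3 := hcoe (fun q => x q + w q)
    have h4 : (fun q => ((x q + w q : O) : L)) = fun q => (x q : L) + (w q : L) := rfl
    rw [h4, h1] at h3
    exact O.subtype_injective (by rw [map_zero]; exact h3.symm)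
  have h5 := congrArg (residue O) h2
  rw [map_zero] at h5
  rw [← hF, MvPolynomial.eval_map, ← h5]
  have := MvPolynomial.eval₂_comp_left (residue O) (RingHom.id O) (fun q => x q + w q) F
  rw [RingHom.comp_id] at this
  change _ = residue O (MvPolynomial.eval₂ (RingHom.id O) (fun q => x q + w q) F)
  rw [this]
  congr 1
  funext q
  simp only [Function.comp, map_add, hxres, hwu]

end Pool.Agent.Helper33x.DC
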