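import Mathlib

/-!
# Sums over injective tuples and power sums
-/

namespace Pool.Agent.Helper33x.DC

open Function

variable {K : Type*} [CommRing K] {R : Type*} [Fintype R] [DecidableEq R]

/-- the sum over the injective tuples -/
noncomputable def einj {n : ℕ} (u : Fin n → R → K) : K :=
  ∑ f : Fin n → R, open Classical in if Injective f then ∏ s, u s (f s) else 0

omit [Fintype R] [DecidableEq R] in
lemma insertNth_injective_iff {n : ℕ} (p : Fin (n + 1)) (x : R) (f : Fin n → R) :
    Injective (Fin.insertNth (α := fun _ => R) p x f) ↔ Injective f ∧ x ∉ Set.range f := by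
  constructor
  · intro h
    refine ⟨?_, ?_⟩
    · intro a b hab
      have : p.succAbove a = p.succAbove b := h (by simpa using hab)
      exact Fin.succAbove_right_injective this
    · rintro ⟨a, ha⟩
      have : p.succAbove a = p := h (by simpa using ha)
      exact Fin.succAbove_ne p a this
  · rintro ⟨h1, h2⟩ a b hab
    rcases Fin.eq_self_or_eq_succAbove p a with ha | ⟨a, ha⟩ <;>
      rcases Fin.eq_self_or_eq_succAbove p b with hb | ⟨b, hb⟩
    · rw [ha, hb]
    · rw [ha, hb] at hab
      exfalso; apply h2; exact ⟨b, by simpa using hab.symm⟩
    · rw [ha, hb] at hab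
      exfalso; apply h2; exact ⟨a, by simpa using hab⟩
    · rw [ha, hb] at hab
      have : f a = f b := by simpa using hab
      rw [ha, hb, h1 this]

/-- the recursion -/
lemma einj_succ {n : ℕ} (p : Fin (n + 1)) (u : Fin (n + 1) → R → K) :
    einj u = (∑ x, u p x) * einj (fun s => u (p.succAbove s)) -
      ∑ s : Fin n, einj (update (fun s => u (p.succAbove s)) s
        (u p * u (p.succAbove s))) := by
  classical
  have h1 : einj u = ∑ f : Fin n → R, ∑ x : R, if Injective f ∧ x ∉ Set.range f then
      u p x * ∏ s, u (p.succAbove s) (f s) else 0 := by
    unfold einj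
    rw [← (Fin.insertNthEquiv (fun _ => R) p).sum_comp, Fintype.sum_prod_type, Finset.sum_comm]
    refine Finset.sum_congr rfl fun f _ => Finset.sum_congr rfl fun x _ => ?_
    have h2 := insertNth_injective_iff p x f
    by_cases h : Injective f ∧ x ∉ Set.range f
    · rw [if_pos h]
      refine (if_pos (h2.2 h)).trans ?_
      rw [Fin.prod_univ_succAbove _ p]
      simp
    · rw [if_neg h]
      exact if_neg (fun h' => h (h2.1 h'))
  rw [h1]
  have h3 : ∀ s : Fin n, einj (update (fun s => u (p.succAbove s)) s
        (u p * u (p.succAbove s))) =
      ∑ f : Fin n → R, if Injective f then u p (f s) * ∏ s, u (p.succAbove s) (f s) else 0 := by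
    intro s
    unfold einj
    refine Finset.sum_congr rfl fun f _ => ?_
    by_cases h : Injective f
    · rw [if_pos h, if_pos h,
        ← Finset.mul_prod_erase Finset.univ _ (Finset.mem_univ s),
        ← Finset.mul_prod_erase Finset.univ (fun s => u (p.succAbove s) (f s))
          (Finset.mem_univ s), update_self, Pi.mul_apply, mul_assoc]
      congr 2
      refine Finset.prod_congr rfl fun i hi => ?_
      rw [update_of_ne (Finset.ne_of_mem_erase hi)]
    · rw [if_neg h, if_neg h]
  rw [Finset.sum_congr rfl fun s _ => h3 s, Finset.sum_comm (s := (Finset.univ : Finset (Fin n)))]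
  unfold einj
  rw [Finset.mul_sum, ← Finset.sum_sub_distrib]
  refine Finset.sum_congr rfl fun f _ => ?_
  by_cases h : Injective f
  · simp only [h, true_and, if_true]
    rw [← Finset.sum_mul, ← sub_mul, ← Finset.sum_filter, ← Finset.sum_mul]
    congr 1
    rw [eq_sub_iff_add_eq]
    have h4 : ∑ s : Fin n, u p (f s) = ∑ x ∈ Finset.univ.filter (fun x => x ∈ Set.range f), u p x := by
      have : Finset.univ.filter (fun x => x ∈ Set.range f) = Finset.univ.image f := by
        ext x; simp
      rw [this, Finset.sum_image (fun a _ b _ hab => h hab)]
    rw [h4, add_comm]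
    exact Finset.sum_filter_add_sum_filter_not Finset.univ (fun x => x ∈ Set.range f) (u p)
  · simp [h]

/-- `F` is a sum of at most `N` products `g h`, with `g` multilinear in a nonempty set of arguments
not containing `p`. -/
def Dec (K : Type*) [CommRing K] (R : Type*) (n : ℕ) (p : Fin n) (N : ℕ)
    (F : (Fin n → R → K) → K) : Prop :=
  ∃ (I : Type) (_ : Fintype I) (B : I → Finset (Fin n)) (g h : I → (Fin n → R → K) → K),
    Fintype.card I ≤ N ∧ (∀ s, (B s).Nonempty) ∧ (∀ s, p ∉ B s) ∧
    (∀ s v v', (∀ i ∈ B s, v i = v' i) → g s v = g s v') ∧
    (∀ s, ∀ i ∈ B s, ∀ v x y, ∀ c : K,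
      g s (update v i (x + c • y)) = g s (update v i x) + c * g s (update v i y)) ∧
    ∀ v, F v = ∑ s, g s v * h s v

/-- number of products -/
def cnt : ℕ → ℕ
  | 0 => 0
  | (n + 1) => 1 + n * cnt n

lemma einj_dec (n : ℕ) : ∀ p : Fin (n + 1),
    Dec K R (n + 1) p (cnt (n + 1))
      (fun u => einj u - (-1) ^ n * (n.factorial : K) * ∑ x, ∏ i, u i x) := by
  classical
  induction n with
  | zero =>
    intro p
    refine ⟨Empty, inferInstance, fun s => s.elim, fun s => s.elim, fun s => s.elim, by simp,
      fun s => s.elim, fun s => s.elim, fun s => s.elim, fun s => s.elim, ?_⟩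
    intro v
    have hp : p = 0 := Fin.eq_zero p
    subst hp
    have h1 := einj_succ 0 v
    have h2 : einj (fun s : Fin 0 => v (Fin.succAbove 0 s)) = (1 : K) := by
      unfold einj
      rw [Fintype.sum_unique]
      rw [if_pos (Function.injective_of_subsingleton _)]
      simp
    show einj v - (-1) ^ 0 * ↑(Nat.factorial 0) * ∑ x, ∏ i, v i x = ∑ s : Empty, _
    rw [h1, h2]
    simp
  | succ n ih =>
    intro p
    -- the decompositions of the merged sums
    choose I hI B g h hcard hne hp hdep hlin hrep using ih
    refine ⟨Option (Σ s : Fin (n + 1), I s), inferInstance,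
      fun t => Option.casesOn t (Finset.univ.erase p)
        (fun t => (B t.1 t.2).map (Fin.succAboveEmb p)),
      fun t v => Option.casesOn t (einj fun s => v (p.succAbove s))
        (fun t => g t.1 t.2 (update (fun s => v (p.succAbove s)) t.1
          (v p * v (p.succAbove t.1)))),
      fun t v => Option.casesOn t (∑ x, v p x)
        (fun t => - h t.1 t.2 (update (fun s => v (p.succAbove s)) t.1
          (v p * v (p.succAbove t.1)))), ?_, ?_, ?_, ?_, ?_, ?_⟩
    · rw [Fintype.card_option, Fintype.card_sigma, add_comm]
      simp only [cnt]
      have : ∑ s : Fin (n + 1), Fintype.card (I s) ≤ ∑ s : Fin (n + 1), (1 + n * cnt n) :=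
        Finset.sum_le_sum fun s _ => hcard s
      simp only [Finset.sum_const, Finset.card_univ, Fintype.card_fin, smul_eq_mul] at this
      omega
    · rintro (_ | t)
      · refine ⟨p.succAbove 0, ?_⟩
        simp only [Finset.mem_erase, Finset.mem_univ, and_true]
        exact Fin.succAbove_ne p 0
      · simpa using hne t.1 t.2
    · rintro (_ | t)
      · simp
      · simp only [Finset.mem_map, not_exists, not_and]
        intro i _ hi
        exact Fin.succAbove_ne p i hi
    · rintro (_ | t) v v' hv
      · simp only
        congr 1
        funext s
        apply hv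
        simp only [Finset.mem_erase, Finset.mem_univ, and_true]
        exact Fin.succAbove_ne p s
      · simp only
        apply hdep
        intro i hi
        have hne' : i ≠ t.1 := fun h => hp t.1 t.2 (h ▸ hi)
        rw [update_of_ne hne', update_of_ne hne']
        apply hv
        simp only [Finset.mem_map]
        exact ⟨i, hi, rfl⟩
    · rintro (_ | t) i hi v x y c
      · simp only
        simp only [Finset.mem_erase, Finset.mem_univ, and_true] at hi
        obtain ⟨s, rfl⟩ := Fin.exists_succAbove_eq hi
        have hu : ∀ z : R → K, (fun s' => update v (p.succAbove s) z (p.succAbove s')) =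
            update (fun s' => v (p.succAbove s')) s z := by
          intro z
          funext s'
          by_cases h : s' = s
          · subst h; simp
          · rw [update_of_ne h, update_of_ne]
            intro h'; exact h (Fin.succAbove_right_injective h')
        rw [hu, hu, hu]
        unfold einj
        rw [Finset.mul_sum, ← Finset.sum_add_distrib]
        refine Finset.sum_congr rfl fun f _ => ?_
        by_cases h : Injective f
        · simp only [h, if_true]
          rw [← Finset.mul_prod_erase Finset.univ _ (Finset.mem_univ s),
            ← Finset.mul_prod_erase Finset.univ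
              (fun s' => update (fun s' => v (p.succAbove s')) s x s' (f s')) (Finset.mem_univ s),
            ← Finset.mul_prod_erase Finset.univ
              (fun s' => update (fun s' => v (p.succAbove s')) s y s' (f s')) (Finset.mem_univ s)]
          simp only [update_self]
          have hE : ∀ z : R → K, ∏ x ∈ Finset.univ.erase s,
              update (fun s' => v (p.succAbove s')) s z x (f x) =
              ∏ x ∈ Finset.univ.erase s, v (p.succAbove x) (f x) := by
            intro z
            refine Finset.prod_congr rfl fun i hi => ?_
            rw [update_of_ne (Finset.ne_of_mem_erase hi)]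
          rw [hE, hE, hE]
          simp only [Pi.add_apply, Pi.smul_apply, smul_eq_mul]
          ring
        · simp [h]
      · simp only
        obtain ⟨s, hs, rfl⟩ := Finset.mem_map.1 hi
        have hne' : s ≠ t.1 := fun h => hp t.1 t.2 (h ▸ hs)
        have hu : ∀ z : R → K, update (fun s' => update v (p.succAbove s) z (p.succAbove s')) t.1
              (update v (p.succAbove s) z p *
                update v (p.succAbove s) z (p.succAbove t.1)) =
            update (update (fun s' => v (p.succAbove s')) t.1
              (v p * v (p.succAbove t.1))) s z := by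
          intro z
          have e1 : update v (p.succAbove s) z p = v p :=
            update_of_ne (Fin.succAbove_ne p s).symm _ _
          have e2 : update v (p.succAbove s) z (p.succAbove t.1) = v (p.succAbove t.1) :=
            update_of_ne (fun h => hne' (Fin.succAbove_right_injective h).symm) _ _
          have e3 : (fun s' => update v (p.succAbove s) z (p.succAbove s')) =
              update (fun s' => v (p.succAbove s')) s z := by
            funext s'
            by_cases h : s' = s
            · subst h; simp
            · rw [update_of_ne h, update_of_ne]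
              intro h'; exact h (Fin.succAbove_right_injective h')
          rw [e1, e2, e3, update_comm hne']
        have h3 := hlin t.1 t.2 s hs (update (fun s' => v (p.succAbove s')) t.1
              (v p * v (p.succAbove t.1))) x y c
        rw [← hu, ← hu, ← hu] at h3
        exact h3
    · intro v
      rw [Fintype.sum_option, Fintype.sum_sigma]
      simp only
      have h4 : ∀ s : Fin (n + 1), ∑ t : I s, g s t (update (fun s => v (p.succAbove s)) s
          (v p * v (p.succAbove s))) * (- h s t (update (fun s => v (p.succAbove s)) s
          (v p * v (p.succAbove s)))) =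
          - (einj (update (fun s => v (p.succAbove s)) s (v p * v (p.succAbove s))) -
            (-1) ^ n * (n.factorial : K) * ∑ x, ∏ i, v i x) := by
        intro s
        have h5 := hrep s (update (fun s => v (p.succAbove s)) s (v p * v (p.succAbove s)))
        simp only at h5
        have h6 : ∑ x, ∏ i, (update (fun s => v (p.succAbove s)) s
            (v p * v (p.succAbove s))) i x = ∑ x, ∏ i, v i x := by
          refine Finset.sum_congr rfl fun x _ => ?_
          rw [Fin.prod_univ_succAbove _ p,
            ← Finset.mul_prod_erase Finset.univ _ (Finset.mem_univ s),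
            ← Finset.mul_prod_erase Finset.univ (fun i => v (p.succAbove i) x)
              (Finset.mem_univ s), update_self, Pi.mul_apply, mul_assoc]
          congr 2
          refine Finset.prod_congr rfl fun i hi => ?_
          rw [update_of_ne (Finset.ne_of_mem_erase hi)]
        rw [h6] at h5
        rw [h5, ← Finset.sum_neg_distrib]
        refine Finset.sum_congr rfl fun t _ => ?_
        ring
      rw [Finset.sum_congr rfl fun s _ => h4 s]
      rw [einj_succ p v]
      simp only [neg_sub, Finset.sum_sub_distrib, Finset.sum_const, Finset.card_univ,
        Fintype.card_fin, nsmul_eq_mul]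
      rw [Nat.factorial_succ]
      push_cast
      ring

end Pool.Agent.Helper33x.DC
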