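import Pool.Agent.Helper33x.DC.Robust
import Pool.Agent.Helper33x.DC.Newton

/-!
# From sums over injective tuples of rows and of columns to power sums
-/

namespace Pool.Agent.Helper33x.DC

open Module Submodule Function

variable {K : Type*} [Field K] [CharZero K]

lemma comp_update {X R : Type*} {j : ℕ} (φ : Fin j → R → X) (v : Fin j → X → K) (i : Fin j)
    (x : X → K) :
    (fun s r => update v i x s (φ s r)) = update (fun s r => v s (φ s r)) i (fun r => x (φ i r)) := by
  funext s r
  by_cases h : s = i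
  · subst h; simp
  · rw [update_of_ne h, update_of_ne h]

theorem rep_of_expand {M t b n : ℕ} (W : Submodule K (Fin M × (Fin t × Fin b) → K))
    (hQ : ∀ v : Fin (n + 1) → Fin M × (Fin t × Fin b) → K, (∀ i, v i ∈ W) →
      ∑ a : Fin t, ∑ κ : Fin (n + 1) → Fin b, (open Classical in if Injective κ then
        einj (fun s (i : Fin M) => v s (i, (a, κ s))) else 0) = 0) :
    Rep W (n + 1) 1 ((t * b ^ (n + 1) + M * t) * cnt (n + 1)) := by
  classical
  obtain ⟨I, hI, B, g, h, hcard, hne, hp, hdep, hlin, hrep⟩ :=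
    einj_dec (K := K) (R := Fin M) n 0
  obtain ⟨I', hI', B', g', h', hcard', hne', hp', hdep', hlin', hrep'⟩ :=
    einj_dec (K := K) (R := Fin b) n 0
  set c : K := (-1) ^ n * (n.factorial : K) with hc
  have hc0 : c ≠ 0 := mul_ne_zero (pow_ne_zero _ (neg_ne_zero.mpr one_ne_zero))
    (Nat.cast_ne_zero.mpr (Nat.factorial_ne_zero n))
  let φ : Fin t → (Fin (n + 1) → Fin b) → Fin (n + 1) → Fin M → Fin M × (Fin t × Fin b) :=
    fun a κ s i => (i, (a, κ s))
  let ψ : Fin M → Fin t → Fin (n + 1) → Fin b → Fin M × (Fin t × Fin b) :=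
    fun i a _ d => (i, (a, d))
  refine ⟨(Fin t × (Fin (n + 1) → Fin b) × I) ⊕ (Fin M × Fin t × I'), inferInstance,
    Sum.elim (fun q => B q.2.2) (fun q => B' q.2.2),
    Sum.elim (fun q v => g q.2.2 (fun s r => v s (φ q.1 q.2.1 s r)))
      (fun q v => g' q.2.2 (fun s r => v s (ψ q.1 q.2.1 s r))),
    Sum.elim (fun q v => - (c * c)⁻¹ * if Injective q.2.1 then
        h q.2.2 (fun s r => v s (φ q.1 q.2.1 s r)) else 0)
      (fun q v => - c⁻¹ * h' q.2.2 (fun s r => v s (ψ q.1 q.2.1 s r))),
    ?_, ?_, ?_, ?_, ?_, ?_⟩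
  · rw [Fintype.card_sum, Fintype.card_prod, Fintype.card_prod, Fintype.card_prod,
      Fintype.card_prod, Fintype.card_fin, Fintype.card_fin, Fintype.card_fun, Fintype.card_fin,
      Fintype.card_fin]
    rw [add_mul]
    refine add_le_add ?_ ?_
    · rw [← mul_assoc]; exact Nat.mul_le_mul_left _ hcard
    · rw [← mul_assoc]; exact Nat.mul_le_mul_left _ hcard'
  · rintro (q | q)
    · exact hne _
    · exact hne' _
  · rintro (q | q) i hi
    · have h1 : i ≠ 0 := fun h2 => hp q.2.2 (h2 ▸ hi)
      exact Nat.one_le_iff_ne_zero.2 (fun h2 => h1 (Fin.ext h2))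
    · have h1 : i ≠ 0 := fun h2 => hp' q.2.2 (h2 ▸ hi)
      exact Nat.one_le_iff_ne_zero.2 (fun h2 => h1 (Fin.ext h2))
  · rintro (q | q) v v' hv
    · exact hdep _ _ _ (fun i hi => by simp only [hv i hi])
    · exact hdep' _ _ _ (fun i hi => by simp only [hv i hi])
  · rintro (q | q) i hi v x y e
    · simp only [Sum.elim_inl]
      rw [comp_update, comp_update, comp_update]
      exact hlin q.2.2 i hi _ (fun r => x (φ q.1 q.2.1 i r)) (fun r => y (φ q.1 q.2.1 i r)) e
    · simp only [Sum.elim_inr]
      rw [comp_update, comp_update, comp_update]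
      exact hlin' q.2.2 i hi _ (fun r => x (ψ q.1 q.2.1 i r)) (fun r => y (ψ q.1 q.2.1 i r)) e
  · intro v hv
    have h1 := hQ v hv
    have h2 : ∀ (a : Fin t) (κ : Fin (n + 1) → Fin b),
        (if Injective κ then einj (fun s (i : Fin M) => v s (i, (a, κ s))) else 0) =
        c * (if Injective κ then ∑ i, ∏ s, v s (i, (a, κ s)) else 0) +
          ∑ q : I, g q (fun s r => v s (φ a κ s r)) *
            (if Injective κ then h q (fun s r => v s (φ a κ s r)) else 0) := by
      intro a κ
      by_cases hκ : Injective κ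
      · simp only [if_pos hκ]
        have h3 := hrep (fun s r => v s (φ a κ s r))
        simp only at h3
        rw [← h3]
        ring
      · simp only [if_neg hκ, mul_zero, Finset.sum_const_zero, add_zero]
    have h4 : ∀ (i : Fin M) (a : Fin t),
        ∑ κ : Fin (n + 1) → Fin b, (if Injective κ then ∏ s, v s (i, (a, κ s)) else 0) =
        c * ∑ d, ∏ s, v s (i, (a, d)) +
          ∑ q : I', g' q (fun s r => v s (ψ i a s r)) * h' q (fun s r => v s (ψ i a s r)) := by
      intro i a
      have h3 := hrep' (fun s r => v s (ψ i a s r))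
      simp only at h3
      rw [← h3]
      simp only [einj, ψ]
      ring
    have h5 : ∑ a : Fin t, ∑ κ : Fin (n + 1) → Fin b,
        (if Injective κ then ∑ i, ∏ s, v s (i, (a, κ s)) else 0) =
        ∑ i : Fin M, ∑ a : Fin t, ∑ κ : Fin (n + 1) → Fin b,
          (if Injective κ then ∏ s, v s (i, (a, κ s)) else 0) := by
      rw [Finset.sum_comm (s := (Finset.univ : Finset (Fin M)))]
      refine Finset.sum_congr rfl fun a _ => ?_
      rw [Finset.sum_comm (s := (Finset.univ : Finset (Fin M)))]
      refine Finset.sum_congr rfl fun κ _ => ?_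
      by_cases hκ : Injective κ
      · simp only [if_pos hκ]
      · simp only [if_neg hκ, Finset.sum_const_zero]
    have h6 : psum v = ∑ i : Fin M, ∑ a : Fin t, ∑ d, ∏ s, v s (i, (a, d)) := by
      unfold psum
      rw [Fintype.sum_prod_type]
      refine Finset.sum_congr rfl fun i _ => ?_
      rw [Fintype.sum_prod_type]
    simp only [h2, Finset.sum_add_distrib, ← Finset.mul_sum] at h1
    rw [h5] at h1
    simp only [h4, Finset.sum_add_distrib, ← Finset.mul_sum] at h1
    rw [← h6] at h1
    rw [Fintype.sum_sum_type]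
    simp only [Sum.elim_inl, Sum.elim_inr, Fintype.sum_prod_type]
    have h7 : ∀ A B : K, c * (c * psum v + A) + B = 0 →
        psum v = - (c * c)⁻¹ * B + - c⁻¹ * A := by
      intro A B hAB
      field_simp
      linear_combination hAB
    rw [h7 _ _ h1]
    congr 1
    · simp only [Finset.mul_sum]
      refine Finset.sum_congr rfl fun a _ => Finset.sum_congr rfl fun κ _ =>
        Finset.sum_congr rfl fun q _ => ?_
      ring
    · simp only [Finset.mul_sum]
      refine Finset.sum_congr rfl fun a _ => Finset.sum_congr rfl fun κ _ =>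
        Finset.sum_congr rfl fun q _ => ?_
      ring

end Pool.Agent.Helper33x.DC
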