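import Pool.Agent.Helper33x.DC.Taylor
import Pool.Agent.Helper33x.DC.Expand
import Pool.Agent.Helper1x.DC.Null

/-!
# The dimension of a linear space of zeros through the base point
-/

namespace Pool.Agent.Helper33x.DC

open Function Module Submodule

lemma cnt_mono {a b : ℕ} (h : a ≤ b) : cnt a ≤ cnt b := by
  induction b, h using Nat.le_induction with
  | base => exact le_rfl
  | succ b _ ih =>
    refine le_trans ih ?_
    show cnt b ≤ 1 + b * cnt b
    rcases Nat.eq_zero_or_pos b with hb | hb
    · subst hb; simp [cnt]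
    · calc cnt b = 1 * cnt b := (one_mul _).symm
        _ ≤ b * cnt b := Nat.mul_le_mul_right _ hb
        _ ≤ 1 + b * cnt b := by omega

variable {K : Type*} [Field K] [CharZero K] {M t b f p : ℕ}

/-- the class sums -/
def clsum (K : Type*) [Field K] (M t b : ℕ) :
    (Fin M × (Fin t × Fin b) → K) →ₗ[K] (Fin M × Fin t → K) where
  toFun y q := ∑ d, y (q.1, (q.2, d))
  map_add' y z := by funext q; simp [Finset.sum_add_distrib]
  map_smul' c y := by funext q; simp [Finset.mul_sum]

lemma Rep.mono {X : Type*} [Fintype X] {W W' : Submodule K (X → K)} {j q S : ℕ} (h : W' ≤ W)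
    (hR : Rep W j q S) : Rep W' j q S := by
  obtain ⟨I, hI, B, g, hh, hcard, hne, hq, hdep, hlin, hrep⟩ := hR
  exact ⟨I, hI, B, g, hh, hcard, hne, hq, hdep, hlin, fun v hv => hrep v fun i => h (hv i)⟩

theorem dim_main [NeZero M] [NeZero t] [NeZero b] (hp : 1 ≤ p)
    (hcard : M + (t * p + 1) = t * (b + (p + 1)) + f) (c : Fin (p + 1) → K)
    (hc : ∀ β ≤ p + 1, ∀ m ≤ p + 1,
      ((1 + Polynomial.X) ^ (b - β) * ∏ r, (1 + Polynomial.C (c r) * Polynomial.X) :
        Polynomial K).coeff m =
        ((1 + Polynomial.X) ^ (p + 1 - β) - Polynomial.X ^ (p + 1) : Polynomial K).coeff m)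
    (W : Submodule K (Fin M × (Fin t × Fin b) → K))
    (hW : ∀ w ∈ W, inj (full c w : Fin M ⊕ Spec t p → Col t b (p + 1) f → K) = 0)
    {R : ℕ} (hR : 0 < R) :
    (p + 1) * (R * finrank K W) ≤ (p + 1) * (R * (M * t)) + R * (M * (t * b)) +
      (p + 1) * (p * (p * (M * (t * b)) +
        p * R ^ (p + 1) * ((t * b ^ (p + 1) + M * t) * cnt (p + 1)))) := by
  set W1 : Submodule K (Fin M × (Fin t × Fin b) → K) := W ⊓ LinearMap.ker (clsum K M t b) with hW1
  have hd1 := finrank_le_inf_ker W (clsum K M t b)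
  rw [Fintype.card_prod, Fintype.card_fin, Fintype.card_fin] at hd1
  have hz : ∀ w ∈ W1, ∀ r a, ∑ d, w (r, (a, d)) = 0 := by
    intro w hw r a
    have h1 := (Submodule.mem_inf.1 hw).2
    rw [LinearMap.mem_ker] at h1
    exact congrFun h1 (r, a)
  have hcX : Fintype.card (Fin M × (Fin t × Fin b)) = M * (t * b) := by simp
  have hb1 : 1 ≤ b := Nat.one_le_iff_ne_zero.2 (NeZero.ne b)
  set E : ℕ := p * (M * (t * b)) +
        p * R ^ (p + 1) * ((t * b ^ (p + 1) + M * t) * cnt (p + 1)) with hE
  have key : ∀ n, n ≤ p → ∃ W' ≤ W1, R * finrank K W1 ≤ R * finrank K W' + n * E ∧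
      ∀ m, 1 ≤ m → m ≤ n → ∀ v : Fin (m + 1) → Fin M × (Fin t × Fin b) → K,
        (∀ i, v i ∈ W') → psum v = 0 := by
    intro n
    induction n with
    | zero =>
      intro _
      exact ⟨W1, le_rfl, by simp, fun m h1 h2 => by omega⟩
    | succ n ih =>
      intro hn
      obtain ⟨W', hW', hd, hps⟩ := ih (by omega)
      have hrep : Rep W1 (n + 1 + 1) 1 ((t * b ^ (n + 1 + 1) + M * t) * cnt (n + 1 + 1)) := by
        apply rep_of_expand
        intro v hv
        have := taylor (n := n + 1) hp (by omega) hcard c hc W1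
          (fun w hw => hW w (Submodule.mem_inf.1 hw).1) hz v hv
        exact this
      obtain ⟨W'', hW'', hd2, hps2⟩ := Rep.robust (R := R) hR (n + 1) (W := W') (q := 1)
        le_rfl (by omega) (hrep.mono hW')
      refine ⟨W'', hW''.trans hW', ?_, ?_⟩
      · rw [hcX] at hd2
        have h1 : (n + 1) * (M * (t * b)) + (n + 1) * R ^ (n + 1 + 1) *
            ((t * b ^ (n + 1 + 1) + M * t) * cnt (n + 1 + 1)) ≤ E := by
          rw [hE]
          have e1 : (n + 1) * (M * (t * b)) ≤ p * (M * (t * b)) := Nat.mul_le_mul_right _ hn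
          have e2 : R ^ (n + 1 + 1) ≤ R ^ (p + 1) := Nat.pow_le_pow_right hR (by omega)
          have e3 : b ^ (n + 1 + 1) ≤ b ^ (p + 1) := Nat.pow_le_pow_right hb1 (by omega)
          have e4 : cnt (n + 1 + 1) ≤ cnt (p + 1) := cnt_mono (by omega)
          refine add_le_add e1 (Nat.mul_le_mul (Nat.mul_le_mul hn e2) (Nat.mul_le_mul ?_ e4))
          exact add_le_add (Nat.mul_le_mul_left _ e3) le_rfl
        have h2 : (n + 1) * E = n * E + E := by ring
        omega
      · intro m hm1 hm2 v hv
        rcases Nat.lt_or_ge n m with hnm | hnm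
        · have : m = n + 1 := by omega
          subst this
          exact hps2 v hv
        · exact hps m hm1 hnm v (fun i => hW'' (hv i))
  obtain ⟨W', hW', hd, hps⟩ := key p le_rfl
  have hnull := H1DC.null_bound W' (p + 1) (by omega) (by
    intro w hw j hj1 hj2
    rcases Nat.lt_or_ge 1 j with hj | hj
    · obtain ⟨m, rfl⟩ : ∃ m, j = m + 1 := ⟨j - 1, by omega⟩
      have := hps m (by omega) (by omega) (fun _ => w) (fun _ => hw)
      rw [← this]
      unfold psum
      refine Finset.sum_congr rfl fun x _ => ?_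
      rw [Finset.prod_const, Finset.card_univ, Fintype.card_fin]
    · have : j = 1 := by omega
      subst this
      simp only [pow_one]
      rw [Fintype.sum_prod_type]
      apply Finset.sum_eq_zero
      intro r _
      rw [Fintype.sum_prod_type]
      apply Finset.sum_eq_zero
      intro a _
      exact hz w (hW' hw) r a)
  rw [hcX] at hnull
  have e1 : (p + 1) * (R * finrank K W) ≤ (p + 1) * (R * finrank K W1) + (p + 1) * (R * (M * t)) := by
    rw [← Nat.mul_add, ← Nat.mul_add]
    exact Nat.mul_le_mul_left _ (Nat.mul_le_mul_left _ hd1)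
  have e2 : (p + 1) * (R * finrank K W1) ≤ (p + 1) * (R * finrank K W') + (p + 1) * (p * E) := by
    rw [← Nat.mul_add]
    exact Nat.mul_le_mul_left _ hd
  have e3 : (p + 1) * (R * finrank K W') ≤ R * (M * (t * b)) := by
    have : (p + 1) * (R * finrank K W') = R * ((p + 1) * finrank K W') := by ring
    rw [this]
    exact Nat.mul_le_mul_left _ (by omega)
  omega

end Pool.Agent.Helper33x.DC
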