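import Mathlib

/-!
# The weights of the reservoir columns
-/

namespace Pool.Agent.Helper33x.DC

open Polynomial

variable {K : Type*} [Field K]

/-- A polynomial with constant term `1` over an algebraically closed field is a product of
factors `1 + c X`. -/
lemma exists_prod_one_add [IsAlgClosed K] : ∀ (k : ℕ) (P : K[X]), P.natDegree ≤ k →
    P.coeff 0 = 1 → ∃ c : Fin k → K, P = ∏ r, (1 + C (c r) * X) := by
  intro k
  induction k with
  | zero =>
    intro P hP h0
    refine ⟨fun r => r.elim0, ?_⟩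
    rw [Finset.univ_eq_empty, Finset.prod_empty, eq_C_of_natDegree_le_zero hP, h0, C_1]
  | succ k ih =>
    intro P hP h0
    by_cases hd : P.natDegree = 0
    · refine ⟨fun _ => 0, ?_⟩
      rw [eq_C_of_natDegree_eq_zero hd, h0]
      simp
    · have hdeg : P.degree ≠ 0 := by
        intro h
        exact hd (natDegree_eq_of_degree_eq_some h)
      obtain ⟨α, hα⟩ := IsAlgClosed.exists_root P hdeg
      have hα0 : α ≠ 0 := by
        rintro rfl
        rw [IsRoot.def, ← coeff_zero_eq_eval_zero, h0] at hα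
        exact one_ne_zero hα
      obtain ⟨Q, hQ⟩ := dvd_iff_isRoot.2 hα
      have hP0 : P ≠ 0 := by
        rintro rfl
        simp at h0
      have hQ0 : Q ≠ 0 := by
        rintro rfl
        exact hP0 (by rw [hQ, mul_zero])
      have hQd : Q.natDegree ≤ k := by
        have h1 : P.natDegree = 1 + Q.natDegree := by
          rw [hQ, natDegree_mul (X_sub_C_ne_zero α) hQ0, natDegree_X_sub_C]
        omega
      have hQc : (C (-α) * Q).coeff 0 = 1 := by
        have h1 : P.coeff 0 = -α * Q.coeff 0 := by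
          rw [hQ, mul_coeff_zero, coeff_sub, coeff_X_zero, coeff_C_zero, zero_sub]
        rw [coeff_C_mul, ← h1, h0]
      have hQd' : (C (-α) * Q).natDegree ≤ k :=
        le_trans (natDegree_C_mul_le _ _) hQd
      obtain ⟨c, hc⟩ := ih _ hQd' hQc
      refine ⟨Fin.cons (-α⁻¹) c, ?_⟩
      rw [Fin.prod_univ_succ]
      simp only [Fin.cons_zero, Fin.cons_succ]
      rw [← hc, hQ]
      have h2 : (C α⁻¹ * C α : K[X]) = 1 := by
        rw [← C_mul, inv_mul_cancel₀ hα0, C_1]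
      simp only [C_neg]
      linear_combination (Q * X) * (-h2)

lemma exists_weights [IsAlgClosed K] (k b : ℕ) (hk : 1 ≤ k) (hkb : k ≤ b) :
    ∃ c : Fin k → K, ∀ β ≤ k, ∀ m ≤ k,
      ((1 + X) ^ (b - β) * ∏ r, (1 + C (c r) * X) : K[X]).coeff m =
        ((1 + X) ^ (k - β) - X ^ k : K[X]).coeff m := by
  set U : K[X] := ∑ i ∈ Finset.range (k + 1), (-X) ^ i with hU
  have hU1 : (1 + X) * U = 1 - (-X) ^ (k + 1) := by
    have := mul_neg_geom_sum (-X : K[X]) (k + 1)
    rw [sub_neg_eq_add] at this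
    exact this
  set G1 : K[X] := U ^ b * ((1 + X) ^ k - X ^ k) with hG1
  have hmon : (X ^ (k + 1) : K[X]).Monic := monic_X_pow _
  set G : K[X] := G1 %ₘ X ^ (k + 1) with hG
  have hdiv : (X ^ (k + 1) : K[X]) ∣ G1 - G := by
    refine ⟨G1 /ₘ X ^ (k + 1), ?_⟩
    have := modByMonic_add_div G1 (X ^ (k + 1) : K[X])
    rw [hG]
    linear_combination -this
  have hGdeg : G.natDegree ≤ k := by
    have h1 : G.degree < (X ^ (k + 1) : K[X]).degree := degree_modByMonic_lt _ hmon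
    rw [degree_X_pow] at h1
    rw [natDegree_le_iff_coeff_eq_zero]
    intro N hN
    exact coeff_eq_zero_of_degree_lt (lt_of_lt_of_le h1 (by exact_mod_cast hN))
  have hcoef : ∀ A B : K[X], (X ^ (k + 1) : K[X]) ∣ A - B → ∀ m ≤ k, A.coeff m = B.coeff m := by
    intro A B hAB m hm
    have := X_pow_dvd_iff.1 hAB m (by omega)
    rw [coeff_sub] at this
    exact sub_eq_zero.1 this
  have hG0 : G.coeff 0 = 1 := by
    rw [← hcoef G1 G hdiv 0 (by omega), coeff_zero_eq_eval_zero, hG1, hU]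
    simp only [eval_mul, eval_pow, eval_sub, eval_add, eval_one, eval_X, eval_finsetSum, eval_neg,
      neg_zero, add_zero, one_pow]
    rw [Finset.sum_range_succ', zero_pow (by omega : k ≠ 0)]
    simp
  obtain ⟨c, hc⟩ := exists_prod_one_add k G hGdeg hG0
  refine ⟨c, ?_⟩
  intro β hβ m hm
  rw [← hc]
  apply hcoef _ _ _ m hm
  have hcop : IsCoprime (X ^ (k + 1) : K[X]) ((1 + X) ^ β) := by
    apply IsCoprime.pow
    refine ⟨-1, 1, ?_⟩
    ring
  apply hcop.dvd_of_dvd_mul_left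
  have h1 : (1 + X) ^ β * ((1 + X) ^ (b - β) * G - ((1 + X) ^ (k - β) - X ^ k)) =
      (1 + X) ^ b * G - (1 + X) ^ k + (1 + X) ^ β * X ^ k := by
    have e1 : (1 + X : K[X]) ^ b = (1 + X) ^ β * (1 + X) ^ (b - β) := by
      rw [← pow_add]; congr 1; omega
    have e2 : (1 + X : K[X]) ^ k = (1 + X) ^ β * (1 + X) ^ (k - β) := by
      rw [← pow_add]; congr 1; omega
    rw [e1, e2]
    ring
  rw [h1]
  have h2 : (X ^ (k + 1) : K[X]) ∣ (1 + X) ^ b * G1 - ((1 + X) ^ k - X ^ k) := by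
    have e1 : (1 + X) ^ b * G1 - ((1 + X) ^ k - X ^ k) =
        (((1 + X) * U) ^ b - 1) * ((1 + X) ^ k - X ^ k) := by
      rw [hG1, mul_pow]; ring
    rw [e1, hU1]
    apply Dvd.dvd.mul_right
    have e2 : (1 - (-X) ^ (k + 1) - 1 : K[X]) ∣ (1 - (-X) ^ (k + 1)) ^ b - 1 := by
      have := sub_dvd_pow_sub_pow (1 - (-X) ^ (k + 1) : K[X]) 1 b
      rwa [one_pow] at this
    refine dvd_trans ?_ e2
    refine ⟨-(-1) ^ (k + 1), ?_⟩
    rw [neg_pow (X : K[X])]
    ring
  have h3 : (X ^ (k + 1) : K[X]) ∣ (1 + X) ^ b * G - ((1 + X) ^ k - X ^ k) := by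
    have e1 : (1 + X) ^ b * G - ((1 + X) ^ k - X ^ k) =
        ((1 + X) ^ b * G1 - ((1 + X) ^ k - X ^ k)) - (1 + X) ^ b * (G1 - G) := by ring
    rw [e1]
    exact dvd_sub h2 (Dvd.dvd.mul_left hdiv _)
  have h4 : (X ^ (k + 1) : K[X]) ∣ (1 + X) ^ β * X ^ k - X ^ k := by
    have e1 : ((1 + X) ^ β * X ^ k - X ^ k : K[X]) = ((1 + X) ^ β - 1) * X ^ k := by ring
    rw [e1, pow_succ, mul_comm (X ^ k : K[X]) X]
    apply mul_dvd_mul_right
    have e2 : (1 + X - 1 : K[X]) ∣ (1 + X) ^ β - 1 := by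
      have := sub_dvd_pow_sub_pow (1 + X : K[X]) 1 β
      rwa [one_pow] at this
    rwa [add_sub_cancel_left] at e2
  have e5 : (1 + X) ^ b * G - (1 + X) ^ k + (1 + X) ^ β * X ^ k =
      ((1 + X) ^ b * G - ((1 + X) ^ k - X ^ k)) + ((1 + X) ^ β * X ^ k - X ^ k) := by ring
  rw [e5]
  exact dvd_add h3 h4

/-- the two coefficients that matter -/
lemma coeff_weights_lt (k β m : ℕ) (hm : m < k) :
    ((1 + X) ^ (k - β) - X ^ k : K[X]).coeff m = ((k - β).choose m : K) := by
  rw [coeff_sub, coeff_one_add_X_pow, coeff_X_pow, if_neg (by omega), sub_zero]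

lemma coeff_weights_eq (k β : ℕ) :
    ((1 + X) ^ (k - β) - X ^ k : K[X]).coeff k = ((k - β).choose k : K) - 1 := by
  rw [coeff_sub, coeff_one_add_X_pow, coeff_X_pow, if_pos rfl]

end Pool.Agent.Helper33x.DC
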