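import Pool.Agent.Helper33x.DC.Inj
import Pool.Agent.Helper33x.DC.Weights

/-!
# The special rows of the base point
-/

namespace Pool.Agent.Helper33x.DC

open Function Polynomial

variable {K : Type*} [Field K]

/-- the columns: `t` classes of `b` main and `k` reservoir columns, and `f` free columns -/
abbrev Col (t b k f : ℕ) : Type := (Fin t × (Fin b ⊕ Fin k)) ⊕ Fin f

/-- the special rows: `p` for every class and a global one -/
abbrev Spec (t p : ℕ) : Type := (Fin t × Fin p) ⊕ Unit

/-- the special row of class `a` -/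
def wt {t b k f : ℕ} (c : Fin k → K) (a : Fin t) (x : Col t b k f) : K :=
  Sum.elim (fun q => if q.1 = a then Sum.elim (fun _ => 1) c q.2 else 0) (fun _ => 0) x

/-- the special rows -/
def spec {t b k f p : ℕ} (c : Fin k → K) (q : Spec t p) (x : Col t b k f) : K :=
  Sum.elim (fun q => wt c q.1 x) (fun _ => ∑ a, wt c a x) q

/-- the main column -/
def mainCol {t b k f : ℕ} (q : Fin t × Fin b) : Col t b k f := Sum.inl (q.1, Sum.inl q.2)

lemma mainCol_injective {t b k f : ℕ} :
    Injective (mainCol : Fin t × Fin b → Col t b k f) := by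
  rintro ⟨a, d⟩ ⟨a', d'⟩ h
  simp only [mainCol, Sum.inl.injEq, Prod.mk.injEq] at h
  rw [h.1, h.2]

section

open Classical in
/-- the number of removed columns of class `a` -/
noncomputable def nrem {t b : ℕ} (S : Finset (Fin t × Fin b)) (a : Fin t) : ℕ :=
  (Finset.univ.filter fun d : Fin b => (a, d) ∈ S).card

/-- the special rows with the columns of `S` removed -/
noncomputable def mask {t b k f p : ℕ} (c : Fin k → K) (S : Finset (Fin t × Fin b)) (q : Spec t p)
    (x : Col t b k f) : K :=
  open Classical in if x ∈ S.image mainCol then 0 else spec c q x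

open Classical in
lemma prod_mask {t b k f : ℕ} (c : Fin k → K) (S : Finset (Fin t × Fin b)) (a : Fin t) :
    ∏ x : Col t b k f, (1 + C (if x ∈ S.image mainCol then 0 else wt c a x) * X : K[X]) =
      (1 + X) ^ (b - nrem S a) * ∏ r, (1 + C (c r) * X) := by
  rw [Fintype.prod_sum_type, Fintype.prod_prod_type]
  have h1 : ∏ x : Fin f, (1 + C (if (Sum.inr x : Col t b k f) ∈ S.image mainCol then 0 else
      wt c a (Sum.inr x : Col t b k f)) * X : K[X]) = 1 := by
    apply Finset.prod_eq_one
    intro x _
    simp [wt]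
  rw [h1, mul_one, Finset.prod_eq_single a]
  · rw [Fintype.prod_sum_type]
    congr 1
    · have h2 : ∀ d : Fin b, (1 + C (if (Sum.inl (a, Sum.inl d) : Col t b k f) ∈ S.image mainCol
          then 0 else wt c a (Sum.inl (a, Sum.inl d) : Col t b k f)) * X : K[X]) =
          if (a, d) ∉ S then (1 + X) else 1 := by
        intro d
        have h3 : (Sum.inl (a, Sum.inl d) : Col t b k f) ∈ S.image mainCol ↔ (a, d) ∈ S := by
          rw [Finset.mem_image]
          constructor
          · rintro ⟨q, hq, he⟩
            have := mainCol_injective (k := k) (f := f) (a₁ := q) (a₂ := (a, d)) he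
            rwa [← this]
          · intro h
            exact ⟨(a, d), h, rfl⟩
        by_cases hd : (a, d) ∈ S
        · rw [if_pos (h3.2 hd), if_neg (not_not.2 hd)]; simp
        · rw [if_neg (fun h => hd (h3.1 h)), if_pos hd]; simp [wt]
      rw [Finset.prod_congr rfl fun d _ => h2 d, ← Finset.prod_filter, Finset.prod_const]
      congr 1
      have h4 := Finset.card_filter_add_card_filter_not (s := (Finset.univ : Finset (Fin b)))
          (fun d => (a, d) ∈ S)
      rw [Finset.card_univ, Fintype.card_fin] at h4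
      unfold nrem
      omega
    · refine Finset.prod_congr rfl fun r _ => ?_
      have h3 : (Sum.inl (a, Sum.inr r) : Col t b k f) ∉ S.image mainCol := by
        rw [Finset.mem_image]
        rintro ⟨q, _, he⟩
        simp [mainCol] at he
      rw [if_neg h3]
      simp [wt]
  · intro a' _ ha'
    apply Finset.prod_eq_one
    intro x _
    have : wt c a (Sum.inl (a', x) : Col t b k f) = 0 := by simp [wt, ha']
    rw [this, ite_self, C_0, zero_mul, add_zero]
  · intro h
    exact absurd (Finset.mem_univ a) h

/-- the sum over the placements of the special rows, as a function of the numbers of removed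
columns -/
noncomputable def Xhat (K : Type*) [Field K] {t : ℕ} (p : ℕ) (β : Fin t → ℕ) : K :=
  ∑ a0, (((p + 1).factorial : K) * (((p + 1 - β a0).choose (p + 1) : K) - 1)) *
    ∏ a ∈ Finset.univ.erase a0, ((p.factorial : K) * ((p + 1 - β a).choose p : K))

lemma card_fiber {t p : ℕ} (a0 a : Fin t) :
    Fintype.card {q : Spec t p // Sum.elim (fun q => q.1) (fun _ => a0) q = a} =
      p + if a = a0 then 1 else 0 := by
  rw [Fintype.card_subtype, Finset.card_filter, Fintype.sum_sum_type, Fintype.sum_prod_type]
  simp only [Sum.elim_inl, Sum.elim_inr]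
  congr 1
  · rw [Finset.sum_eq_single a]
    · simp
    · intro x _ hx; simp [hx]
    · intro h; exact absurd (Finset.mem_univ a) h
  · rw [Finset.univ_unique, Finset.sum_singleton]
    by_cases h : a0 = a
    · rw [if_pos h.symm]; exact if_pos h
    · rw [if_neg (Ne.symm h)]; exact if_neg h

open Classical in
theorem inj_mask {t b f p : ℕ} (c : Fin (p + 1) → K)
    (hc : ∀ β ≤ p + 1, ∀ m ≤ p + 1,
      ((1 + X) ^ (b - β) * ∏ r, (1 + C (c r) * X) : K[X]).coeff m =
        ((1 + X) ^ (p + 1 - β) - X ^ (p + 1) : K[X]).coeff m)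
    (S : Finset (Fin t × Fin b)) (hS : ∀ a, nrem S a ≤ p + 1) :
    inj (mask c S : Spec t p → Col t b (p + 1) f → K) = Xhat K p (nrem S) := by
  have h1 : (mask c S : Spec t p → Col t b (p + 1) f → K) =
      Sum.elim (fun q x => if x ∈ S.image mainCol then 0 else wt c q.1 x)
        (fun (_ : Unit) x => ∑ a, (if x ∈ S.image mainCol then 0 else wt c a x)) := by
    funext q x
    rcases q with q | q
    · simp only [mask, spec, Sum.elim_inl]
    · simp only [mask, spec, Sum.elim_inr]
      by_cases hx : x ∈ S.image mainCol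
      · simp only [if_pos hx, Finset.sum_const_zero]
      · simp only [if_neg hx]
  rw [h1, inj_last]
  unfold Xhat
  refine Finset.sum_congr rfl fun a0 _ => ?_
  have h2 : (Sum.elim (fun (q : Fin t × Fin p) (x : Col t b (p + 1) f) =>
      if x ∈ S.image mainCol then (0 : K) else wt c q.1 x)
      (fun (_ : Unit) x => if x ∈ S.image mainCol then 0 else wt c a0 x)) =
      fun (q : Spec t p) x => if x ∈ S.image mainCol then 0 else
        wt c (Sum.elim (fun q => q.1) (fun _ => a0) q) x := by
    funext q x
    rcases q with q | q <;> rfl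
  rw [h2, inj_prod (r := Sum.elim (fun q => q.1) (fun _ => a0))
    (cl := Sum.elim (fun q => some q.1) (fun _ => none))]
  swap
  · intro q x hx
    have : wt c (Sum.elim (fun q => q.1) (fun _ => a0) q) x = 0 := by
      rcases x with x | x
      · simp only [wt, Sum.elim_inl]
        rw [if_neg]
        intro h
        apply hx
        simp [h]
      · simp [wt]
    rw [this, ite_self]
  have h3 : ∀ a : Fin t, inj (fun (q : {q : Spec t p // Sum.elim (fun q => q.1) (fun _ => a0) q = a})
      (x : Col t b (p + 1) f) => if x ∈ S.image mainCol then (0 : K) else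
        wt c (Sum.elim (fun q => q.1) (fun _ => a0) q.1) x) =
      if a = a0 then ((p + 1).factorial : K) * (((p + 1 - nrem S a).choose (p + 1) : K) - 1)
      else (p.factorial : K) * ((p + 1 - nrem S a).choose p : K) := by
    intro a
    have h4 : (fun (q : {q : Spec t p // Sum.elim (fun q => q.1) (fun _ => a0) q = a})
      (x : Col t b (p + 1) f) => if x ∈ S.image mainCol then (0 : K) else
        wt c (Sum.elim (fun q => q.1) (fun _ => a0) q.1) x) =
        fun _ x => if x ∈ S.image mainCol then 0 else wt c a x := by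
      funext q x
      rw [q.2]
    rw [h4, inj_const', prod_mask, card_fiber]
    by_cases ha : a = a0
    · rw [if_pos ha, if_pos ha, hc _ (hS a) _ le_rfl, coeff_weights_eq]
    · rw [if_neg ha, if_neg ha, add_zero, hc _ (hS a) _ (by omega),
        coeff_weights_lt _ _ _ (by omega)]
  rw [Finset.prod_congr rfl fun a _ => h3 a, ← Finset.mul_prod_erase _ _ (Finset.mem_univ a0),
    if_pos rfl]
  congr 1
  refine Finset.prod_congr rfl fun a ha => ?_
  rw [if_neg (Finset.ne_of_mem_erase ha)]

end

lemma Xhat_zero {t p : ℕ} : Xhat K p (fun _ : Fin t => 0) = 0 := by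
  unfold Xhat
  apply Finset.sum_eq_zero
  intro a _
  simp

lemma Xhat_two {t p : ℕ} (hp : 1 ≤ p) (β : Fin t → ℕ) (a a' : Fin t) (haa : a ≠ a')
    (h : 2 ≤ β a) (h' : 2 ≤ β a') : Xhat K p β = 0 := by
  classical
  unfold Xhat
  apply Finset.sum_eq_zero
  intro a0 _
  have h1 : ∀ a1, a1 ≠ a0 → 2 ≤ β a1 →
      ∏ a ∈ Finset.univ.erase a0, ((p.factorial : K) * ((p + 1 - β a).choose p : K)) = 0 := by
    intro a1 h1 h2
    apply Finset.prod_eq_zero (Finset.mem_erase.2 ⟨h1, Finset.mem_univ a1⟩)
    rw [Nat.choose_eq_zero_of_lt (by omega), Nat.cast_zero, mul_zero]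
  by_cases ha : a = a0
  · rw [h1 a' (fun h => haa (ha.trans h.symm)) h', mul_zero]
  · rw [h1 a ha h, mul_zero]

lemma Xhat_single [CharZero K] {t p : ℕ} (a : Fin t) (j : ℕ) (hj : 1 ≤ j) (β : Fin t → ℕ)
    (ha : β a = j) (h0 : ∀ a', a' ≠ a → β a' = 0) :
    Xhat K p β = - ((p + 1).factorial : K) * ((p.factorial : K) * (p + 1 : K)) ^ (t - 1) := by
  classical
  unfold Xhat
  rw [Finset.sum_eq_single a]
  · rw [ha, Nat.choose_eq_zero_of_lt (by omega), Nat.cast_zero, zero_sub, mul_neg, mul_one]
    congr 1
    rw [Finset.prod_congr rfl (g := fun _ => (p.factorial : K) * (p + 1 : K))]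
    · rw [Finset.prod_const, Finset.card_erase_of_mem (Finset.mem_univ a), Finset.card_univ,
        Fintype.card_fin]
    · intro a' ha'
      rw [h0 a' (Finset.ne_of_mem_erase ha'), Nat.sub_zero, Nat.choose_succ_self_right]
      push_cast
      ring
  · intro a0 _ ha0
    rw [h0 a0 ha0, Nat.sub_zero, Nat.choose_self, Nat.cast_one, sub_self, mul_zero, zero_mul]
  · intro h
    exact absurd (Finset.mem_univ a) h

lemma Xhat_single_ne [CharZero K] {t p : ℕ} (a : Fin t) (j : ℕ) (hj : 1 ≤ j) (β : Fin t → ℕ)
    (ha : β a = j) (h0 : ∀ a', a' ≠ a → β a' = 0) : Xhat K p β ≠ 0 := by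
  rw [Xhat_single a j hj β ha h0]
  refine mul_ne_zero (neg_ne_zero.mpr (Nat.cast_ne_zero.mpr (Nat.factorial_ne_zero _)))
    (pow_ne_zero _ (mul_ne_zero (Nat.cast_ne_zero.mpr (Nat.factorial_ne_zero _)) ?_))
  exact_mod_cast Nat.succ_ne_zero p

end Pool.Agent.Helper33x.DC
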