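import Pool.Agent.Helper33x.DC.Newton

/-!
# Sums over injective functions
-/

namespace Pool.Agent.Helper33x.DC

open Function Polynomial

variable {K : Type*} [CommRing K]

/-- the sum of the products along the injective functions -/
noncomputable def inj {ρ γ : Type*} [Fintype ρ] [DecidableEq ρ] [Fintype γ] (A : ρ → γ → K) : K :=
  ∑ f : ρ → γ, open Classical in if Injective f then ∏ r, A r (f r) else 0

section poly

variable {γ : Type*} [Fintype γ] [DecidableEq γ]

/-- the iterated directional derivatives of `∏ (1 + w c)` on a line -/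
noncomputable def Qp {j : ℕ} (w z : γ → K) (v : Fin j → γ → K) : K[X] :=
  ∑ i : Fin j → γ, open Classical in if Injective i then
    C (∏ s, v s (i s)) *
      ∏ c ∈ Finset.univ.filter (fun c => c ∉ Set.range i), (1 + C (w c) + C (z c) * X) else 0

lemma derivative_Qp {j : ℕ} (w z : γ → K) (v : Fin j → γ → K) :
    derivative (Qp w z v) = Qp w z (Fin.cons z v) := by
  classical
  unfold Qp
  rw [← (Fin.insertNthEquiv (fun _ => γ) 0).sum_comp, Fintype.sum_prod_type, Finset.sum_comm,
    derivative_sum]
  refine Finset.sum_congr rfl fun i _ => ?_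
  by_cases hi : Injective i
  · rw [if_pos hi, derivative_C_mul, derivative_prod_finset, Finset.mul_sum]
    have h1 : ∀ x : γ, (if Injective (Fin.insertNthEquiv (fun _ => γ) 0 (x, i)) then
        C (∏ s, (Fin.cons z v : Fin (j + 1) → γ → K) s
          ((Fin.insertNthEquiv (fun _ => γ) 0 (x, i)) s)) *
        ∏ c ∈ Finset.univ.filter (fun c => c ∉ Set.range
          (Fin.insertNthEquiv (fun _ => γ) 0 (x, i))), (1 + C (w c) + C (z c) * X) else 0) =
        if x ∉ Set.range i then C (∏ s, v s (i s)) *
          ((∏ c ∈ (Finset.univ.filter (fun c => c ∉ Set.range i)).erase x,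
            (1 + C (w c) + C (z c) * X)) * C (z x)) else 0 := by
      intro x
      have h2 := insertNth_injective_iff 0 x i
      by_cases hx : x ∉ Set.range i
      · rw [if_pos hx]
        refine (if_pos (h2.2 ⟨hi, hx⟩)).trans ?_
        rw [Fin.prod_univ_succ]
        have h3 : Finset.univ.filter (fun c => c ∉ Set.range
            (Fin.insertNthEquiv (fun _ => γ) 0 (x, i))) =
            (Finset.univ.filter (fun c => c ∉ Set.range i)).erase x := by
          have h4 : Set.range ((Fin.insertNthEquiv (fun _ => γ) 0) (x, i) : Fin (j + 1) → γ) =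
              insert x (Set.range i) := by
            have h5 : ((Fin.insertNthEquiv (fun _ => γ) 0) (x, i) : Fin (j + 1) → γ) =
              (Fin.cons x i : Fin (j + 1) → γ) := by
              funext s; simp
            rw [h5]
            exact Fin.range_cons x i
          ext c
          simp only [Finset.mem_filter, Finset.mem_univ, true_and, Finset.mem_erase]
          rw [h4]
          simp only [Set.mem_insert_iff, not_or, ne_eq]
        rw [h3]
        simp only [Fin.insertNthEquiv_apply, Fin.insertNth_zero', Fin.cons_zero, Fin.cons_succ,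
          C_mul]
        ring
      · rw [if_neg hx]
        exact if_neg (fun h => hx (h2.1 h).2)
    rw [Finset.sum_congr rfl fun x _ => h1 x, ← Finset.sum_filter]
    refine Finset.sum_congr rfl fun x _ => ?_
    simp
  · rw [if_neg hi, derivative_zero]
    symm
    apply Finset.sum_eq_zero
    intro x _
    exact if_neg (fun h => hi ((insertNth_injective_iff 0 x i).1 h).1)

/-- the iterated directional derivatives of `∏ (1 + w c)` -/
noncomputable def Ge {j : ℕ} (w : γ → K) (v : Fin j → γ → K) : K :=
  ∑ i : Fin j → γ, open Classical in if Injective i then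
    (∏ s, v s (i s)) * ∏ c ∈ Finset.univ.filter (fun c => c ∉ Set.range i), (1 + w c) else 0

lemma eval_Qp {j : ℕ} (w z : γ → K) (v : Fin j → γ → K) (t : K) :
    (Qp w z v).eval t = Ge (fun c => w c + t * z c) v := by
  unfold Qp Ge
  rw [eval_finsetSum]
  refine Finset.sum_congr rfl fun i _ => ?_
  split_ifs
  · simp only [eval_mul, eval_prod, eval_add, eval_one, eval_C, eval_X]
    congr 1
    refine Finset.prod_congr rfl fun c _ => ?_
    ring
  · simp

lemma Ge_zero_left {j : ℕ} (v : Fin j → γ → K) : Ge 0 v = inj v := by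
  unfold Ge inj
  refine Finset.sum_congr rfl fun i _ => ?_
  split_ifs
  · simp
  · rfl

end poly

/-- **Polarization.** -/
theorem polar_inj {L V Φ ρ : Type*} [Field L] [CharZero L] [AddCommGroup V] [Module L V]
    [Fintype Φ] [Fintype ρ] [DecidableEq ρ] (W : Submodule L V) (l : Φ → ρ → V →ₗ[L] L)
    (a : Φ → L) (h : ∀ w ∈ W, ∑ f, a f * ∏ r, (1 + l f r w) = 0) (j : ℕ) :
    ∀ y : Fin j → V, (∀ s, y s ∈ W) → ∀ w ∈ W,
      ∑ f, a f * Ge (fun r => l f r w) (fun s r => l f r (y s)) = 0 := by
  classical
  induction j with
  | zero =>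
    intro y _ w hw
    refine Eq.trans (Finset.sum_congr rfl fun f _ => ?_) (h w hw)
    congr 1
    unfold Ge
    rw [Fintype.sum_unique, if_pos (Function.injective_of_subsingleton _)]
    simp
  | succ j ih =>
    intro y hy w hw
    have hP0 : ∑ f, C (a f) * Qp (fun r => l f r w) (fun r => l f r (y 0))
        (fun s r => l f r (y s.succ)) = 0 := by
      apply Polynomial.funext
      intro t
      rw [eval_finsetSum, eval_zero]
      refine Eq.trans (Finset.sum_congr rfl fun f _ => ?_)
        (ih (fun s => y s.succ) (fun s => hy _) (w + t • y 0)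
        (W.add_mem hw (W.smul_mem t (hy 0))))
      rw [eval_mul, eval_C, eval_Qp]
      congr 2
      funext r
      rw [map_add, map_smul, smul_eq_mul]
    have h3 := congrArg (fun P => Polynomial.eval 0 (derivative P)) hP0
    simp only [derivative_zero, eval_zero, derivative_sum, eval_finsetSum, derivative_C_mul,
      derivative_Qp, eval_mul, eval_C, eval_Qp] at h3
    refine Eq.trans (Finset.sum_congr rfl fun f _ => ?_) h3
    congr 2
    · funext r; ring
    · funext s r
      refine Fin.cases ?_ (fun s => ?_) s
      · simp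
      · simp

theorem polar_inj' {L V Φ ρ : Type*} [Field L] [CharZero L] [AddCommGroup V] [Module L V]
    [Fintype Φ] [Fintype ρ] [DecidableEq ρ] (W : Submodule L V) (l : Φ → ρ → V →ₗ[L] L)
    (a : Φ → L) (h : ∀ w ∈ W, ∑ f, a f * ∏ r, (1 + l f r w) = 0) (j : ℕ)
    (y : Fin j → V) (hy : ∀ s, y s ∈ W) :
      ∑ f, a f * inj (fun s r => l f r (y s)) = 0 := by
  refine Eq.trans (Finset.sum_congr rfl fun f _ => ?_) (polar_inj W l a h j y hy 0 W.zero_mem)
  rw [← Ge_zero_left]
  congr 2
  funext r
  simp

/-- identical rows -/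
theorem inj_const {γ : Type*} [Fintype γ] [DecidableEq γ] (v : γ → K) (r : ℕ) :
    inj (fun _ : Fin r => v) = (r.factorial : K) * (∏ c, (1 + C (v c) * X)).coeff r := by
  classical
  have h1 : ∀ r : ℕ, (derivative^[r]) (∏ c, (1 + C (v c) * X)) =
      Qp (0 : γ → K) v (fun _ : Fin r => v) := by
    intro r
    induction r with
    | zero =>
      unfold Qp
      rw [Fintype.sum_unique, if_pos (Function.injective_of_subsingleton _)]
      simp
    | succ r ih =>
      rw [Function.iterate_succ_apply', ih, derivative_Qp]
      congr 1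
      funext s
      refine Fin.cases ?_ (fun s => ?_) s <;> simp
  have h2 : (Qp (0 : γ → K) v (fun _ : Fin r => v)).eval 0 = inj (fun _ : Fin r => v) := by
    rw [eval_Qp, ← Ge_zero_left]
    congr 1
    funext c
    simp
  rw [← h2, ← h1, ← coeff_zero_eq_eval_zero, coeff_iterate_derivative, zero_add,
    Nat.descFactorial_self, nsmul_eq_mul]

section struct

variable {ρ ρ₁ ρ₂ γ : Type*} [Fintype ρ] [DecidableEq ρ] [Fintype ρ₁] [DecidableEq ρ₁]
  [Fintype ρ₂] [DecidableEq ρ₂] [Fintype γ]

lemma inj_reindex (e : ρ₁ ≃ ρ₂) (A : ρ₂ → γ → K) : inj (fun r => A (e r)) = inj A := by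
  classical
  unfold inj
  refine Fintype.sum_equiv (e.arrowCongr (Equiv.refl γ)) _ _ fun f => ?_
  have h1 : Injective f ↔ Injective (e.arrowCongr (Equiv.refl γ) f) := by
    have h2 : (e.arrowCongr (Equiv.refl γ) f) = f ∘ e.symm := by
      funext x; simp [Equiv.arrowCongr]
    rw [h2]
    constructor
    · intro h; exact h.comp e.symm.injective
    · intro h
      have := h.comp e.injective
      have h3 : (f ∘ e.symm) ∘ e = f := by funext x; simp
      rwa [h3] at this
  by_cases hf : Injective f
  · rw [if_pos hf, if_pos (h1.1 hf)]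
    refine Fintype.prod_equiv e _ _ fun r => ?_
    simp [Equiv.arrowCongr]
  · rw [if_neg hf, if_neg (fun h => hf (h1.2 h))]

/-- splitting the rows -/
theorem inj_sum (A : ρ₁ → γ → K) (B : ρ₂ → γ → K) :
    inj (Sum.elim A B) = ∑ κ : ρ₁ → γ, (open Classical in if Injective κ then
      (∏ q, A q (κ q)) * inj (fun r c => if c ∈ Set.range κ then 0 else B r c) else 0) := by
  classical
  unfold inj
  rw [← (Equiv.sumArrowEquivProdArrow ρ₁ ρ₂ γ).symm.sum_comp, Fintype.sum_prod_type]
  refine Finset.sum_congr rfl fun κ _ => ?_
  have h1 : ∀ τ : ρ₂ → γ, (Equiv.sumArrowEquivProdArrow ρ₁ ρ₂ γ).symm (κ, τ) = Sum.elim κ τ :=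
    fun τ => rfl
  by_cases hκ : Injective κ
  · rw [if_pos hκ, Finset.mul_sum]
    refine Finset.sum_congr rfl fun τ _ => ?_
    rw [h1]
    by_cases hτ : Injective τ
    · rw [if_pos hτ]
      by_cases hd : ∀ r, τ r ∉ Set.range κ
      · have h2 : Injective (Sum.elim κ τ) := by
          rintro (a | a) (b | b) hab
          · simp only [Sum.elim_inl] at hab; rw [hκ hab]
          · simp only [Sum.elim_inl, Sum.elim_inr] at hab
            exact absurd ⟨a, hab⟩ (hd b)
          · simp only [Sum.elim_inl, Sum.elim_inr] at hab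
            exact absurd ⟨b, hab.symm⟩ (hd a)
          · simp only [Sum.elim_inr] at hab; rw [hτ hab]
        rw [if_pos h2, Fintype.prod_sum_type]
        simp only [Sum.elim_inl, Sum.elim_inr]
        congr 1
        refine Finset.prod_congr rfl fun r _ => ?_
        rw [if_neg (hd r)]
      · push Not at hd
        obtain ⟨r, hr⟩ := hd
        have h2 : ¬ Injective (Sum.elim κ τ) := by
          intro h
          obtain ⟨q, hq⟩ := hr
          have h3 : (Sum.inl q : ρ₁ ⊕ ρ₂) = Sum.inr r := h (by simpa using hq)
          cases h3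
        rw [if_neg h2, Finset.prod_eq_zero (Finset.mem_univ r), mul_zero]
        exact if_pos hr
    · rw [if_neg hτ, mul_zero, if_neg]
      intro h
      apply hτ
      intro a b hab
      have : (Sum.inr a : ρ₁ ⊕ ρ₂) = Sum.inr b := h (by simpa using hab)
      exact Sum.inr_injective this
  · rw [if_neg hκ]
    apply Finset.sum_eq_zero
    intro τ _
    rw [h1, if_neg]
    intro h
    apply hκ
    intro a b hab
    have : (Sum.inl a : ρ₁ ⊕ ρ₂) = Sum.inl b := h (by simpa using hab)
    exact Sum.inl_injective this

/-- all-one rows filling up the matrix -/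
theorem inj_ones (A : ρ₁ → γ → K) (hcard : Fintype.card ρ₁ + Fintype.card ρ₂ = Fintype.card γ) :
    inj (Sum.elim A (fun (_ : ρ₂) (_ : γ) => (1 : K))) =
      ((Fintype.card ρ₂).factorial : K) * inj A := by
  classical
  rw [inj_sum]
  unfold inj
  rw [Finset.mul_sum]
  refine Finset.sum_congr rfl fun κ _ => ?_
  by_cases hκ : Injective κ
  · rw [if_pos hκ, if_pos hκ, mul_comm]
    congr 1
    have h1 := inj_reindex (K := K) (Fintype.equivFin ρ₂).symm
      (fun (_ : ρ₂) (c : γ) => if c ∈ Set.range κ then (0 : K) else 1)
    unfold inj at h1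
    rw [← h1]
    have h2 := inj_const (fun c : γ => if c ∈ Set.range κ then (0 : K) else 1)
      (Fintype.card ρ₂)
    unfold inj at h2
    rw [h2]
    have h3 : (∏ c : γ, (1 + C (if c ∈ Set.range κ then (0 : K) else 1) * X)).coeff
        (Fintype.card ρ₂) = 1 := by
      have h4 : ∏ c : γ, (1 + C (if c ∈ Set.range κ then (0 : K) else 1) * X) =
          (1 + X) ^ (Finset.univ.filter (fun c => c ∉ Set.range κ)).card := by
        rw [← Finset.prod_const, Finset.prod_filter]
        refine Finset.prod_congr rfl fun c _ => ?_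
        by_cases hc : c ∈ Set.range κ
        · rw [if_pos hc, if_neg (not_not.2 hc)]; simp
        · rw [if_neg hc, if_pos hc]; simp
      have h5 : (Finset.univ.filter (fun c => c ∉ Set.range κ)).card = Fintype.card ρ₂ := by
        have h6 := Finset.card_filter_add_card_filter_not (s := (Finset.univ : Finset γ))
          (fun c => c ∈ Set.range κ)
        have h7 : (Finset.univ.filter (fun c => c ∈ Set.range κ)).card = Fintype.card ρ₁ := by
          have : Finset.univ.filter (fun c => c ∈ Set.range κ) = Finset.univ.image κ := by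
            ext c; simp
          rw [this, Finset.card_image_of_injective _ hκ, Finset.card_univ]
        rw [Finset.card_univ] at h6
        omega
      rw [h4, h5, coeff_one_add_X_pow, Nat.choose_self, Nat.cast_one]
    rw [h3, mul_one]
  · rw [if_neg hκ, if_neg hκ, mul_zero]

/-- product over the classes -/
theorem inj_prod {ι : Type*} [Fintype ι] [DecidableEq ι] (r : ρ → ι) (cl : γ → Option ι)
    (A : ρ → γ → K) (hA : ∀ q c, cl c ≠ some (r q) → A q c = 0) :
    inj A = ∏ a : ι, inj (fun q : {q // r q = a} => A q.1) := by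
  classical
  unfold inj
  rw [Finset.prod_univ_sum]
  simp only [Fintype.piFinset_univ]
  let e : (ρ → γ) ≃ ((a : ι) → {q // r q = a} → γ) :=
    { toFun := fun f a q => f q.1
      invFun := fun G q => G (r q) ⟨q, rfl⟩
      left_inv := fun f => rfl
      right_inv := by
        intro G
        funext a q
        obtain ⟨q, rfl⟩ := q
        rfl }
  refine Fintype.sum_equiv e _ _ fun f => ?_
  have hprod : ∏ q, A q (f q) = ∏ a : ι, ∏ q : {q // r q = a}, A q.1 (f q.1) := by
    rw [← Fintype.prod_sigma']
    exact Fintype.prod_equiv (Equiv.sigmaFiberEquiv r).symm _ _ (fun q => rfl)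
  by_cases hf : Injective f
  · rw [if_pos hf, hprod]
    refine Finset.prod_congr rfl fun a _ => ?_
    have hinj : Injective (e f a) := fun x y hxy => Subtype.ext (hf hxy)
    rw [if_pos hinj]
    rfl
  · rw [if_neg hf]
    symm
    by_cases hz : ∏ a : ι, ∏ q : {q // r q = a}, A q.1 (f q.1) = 0
    · by_cases hall : ∀ a : ι, Injective (e f a)
      · rw [← hz]
        refine Finset.prod_congr rfl fun a _ => ?_
        rw [if_pos (hall a)]
        rfl
      · push Not at hall
        obtain ⟨a, ha⟩ := hall
        exact Finset.prod_eq_zero (Finset.mem_univ a) (if_neg ha)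
    · have hcl : ∀ q, cl (f q) = some (r q) := by
        intro q
        by_contra hq
        apply hz
        rw [← hprod]
        exact Finset.prod_eq_zero (Finset.mem_univ q) (hA q _ hq)
      have : ∃ a : ι, ¬ Injective (e f a) := by
        by_contra hall
        push Not at hall
        apply hf
        intro x y hxy
        have hr : r x = r y := Option.some_injective _ (by rw [← hcl x, ← hcl y, hxy])
        have := hall (r y) (a₁ := ⟨x, hr⟩) (a₂ := ⟨y, rfl⟩) hxy
        exact congrArg Subtype.val this
      obtain ⟨a, ha⟩ := this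
      exact Finset.prod_eq_zero (Finset.mem_univ a) (if_neg ha)

/-- identical rows, general index type -/
lemma inj_const' [DecidableEq γ] (v : γ → K) :
    inj (fun _ : ρ => v) = ((Fintype.card ρ).factorial : K) *
      (∏ c, (1 + C (v c) * X)).coeff (Fintype.card ρ) := by
  rw [← inj_const v, ← inj_reindex (Fintype.equivFin ρ) (fun _ : Fin (Fintype.card ρ) => v)]

/-- linearity in the last row -/
lemma inj_last {ι : Type*} [Fintype ι] (A : ρ → γ → K) (B : ι → γ → K) :
    inj (Sum.elim A (fun (_ : Unit) c => ∑ a, B a c)) =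
      ∑ a, inj (Sum.elim A (fun (_ : Unit) => B a)) := by
  classical
  unfold inj
  rw [Finset.sum_comm]
  refine Finset.sum_congr rfl fun f _ => ?_
  by_cases hf : Injective f
  · simp only [if_pos hf, Fintype.prod_sum_type, Sum.elim_inl, Sum.elim_inr,
      Finset.univ_unique, Finset.prod_singleton, Finset.mul_sum]
  · simp only [if_neg hf, Finset.sum_const_zero]

end struct

end Pool.Agent.Helper33x.DC
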