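import Mathlib

/-!
# Elements of maximal rank in a linear family of linear maps, and products of a subspace of `X → K`
-/

namespace Pool.Agent.Helper33x.DC

open Module Submodule

variable {K : Type*} [Field K] [Infinite K]

/-- For a matrix `B` over an infinite field there is `t ≠ 0` with `det (1 + t B) ≠ 0`. -/
lemma exists_det_ne_zero {n : ℕ} (B : Matrix (Fin n) (Fin n) K) :
    ∃ t : K, t ≠ 0 ∧ (1 + t • B).det ≠ 0 := by
  classical
  let P : Polynomial K :=
    ((1 : Matrix (Fin n) (Fin n) K).map Polynomial.C + (Polynomial.X : Polynomial K) •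
      B.map Polynomial.C).det
  have hev : ∀ t : K, P.eval t = (1 + t • B).det := by
    intro t
    have h1 : P.eval t = (Polynomial.evalRingHom t) P := rfl
    rw [h1, RingHom.map_det]
    congr 1
    ext i j
    simp [Matrix.map_apply, Matrix.one_apply]
    by_cases h : i = j <;> simp [h, mul_comm]
  have h0 : P ≠ 0 := by
    intro h
    have := hev 0
    rw [h] at this
    simp at this
  have h1 : Polynomial.X * P ≠ 0 := mul_ne_zero Polynomial.X_ne_zero h0
  by_contra hcon
  push Not at hcon
  apply h1
  apply Polynomial.funext
  intro t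
  rw [Polynomial.eval_mul, Polynomial.eval_X, Polynomial.eval_zero]
  by_cases ht : t = 0
  · simp [ht]
  · rw [hev t, hcon t ht, mul_zero]

variable {W V Q : Type*} [AddCommGroup W] [Module K W] [AddCommGroup V] [Module K V]
  [AddCommGroup Q] [Module K Q] [FiniteDimensional K V]

/-- **Lemma of maximal rank.** -/
theorem mem_range_of_maxRank (M : W →ₗ[K] V →ₗ[K] Q) (a0 : W)
    (hmax : ∀ a, finrank K (LinearMap.range (M a)) ≤ finrank K (LinearMap.range (M a0)))
    (t : V) (ht : M a0 t = 0) (a : W) : M a t ∈ LinearMap.range (M a0) := by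
  classical
  by_contra hcon
  set r := finrank K (LinearMap.range (M a0)) with hr
  let b := Module.finBasis K (LinearMap.range (M a0))
  have hw : ∀ i : Fin r, ∃ w : V, M a0 w = (b i : Q) := fun i => (b i).2
  choose w hw using hw
  -- the independent family
  let u0 : Fin (r + 1) → Q := Fin.snoc (fun i => (b i : Q)) (M a t)
  have hu0 : LinearIndependent K u0 := by
    rw [linearIndependent_finSnoc]
    refine ⟨?_, ?_⟩
    · exact b.linearIndependent.map' _ (Submodule.ker_subtype _)
    · intro hmem
      apply hcon
      refine (Submodule.span_le.2 ?_) hmem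
      rintro _ ⟨i, rfl⟩
      exact (b i).2
  obtain ⟨L, hL⟩ := (Fintype.linearCombination K u0).exists_leftInverse_of_injective
    (by rw [LinearMap.ker_eq_bot]; exact hu0.fintypeLinearCombination_injective)
  have hLu : ∀ j, L (u0 j) = Pi.single j 1 := by
    intro j
    have := congrArg (fun f => f (Pi.single j (1 : K))) hL
    simpa using this
  let B : Matrix (Fin (r + 1)) (Fin (r + 1)) K := fun i j =>
    L (Fin.snoc (α := fun _ => Q) (fun c => M a (w c)) 0 j) i
  obtain ⟨s, hs0, hs⟩ := exists_det_ne_zero B
  let u : Fin (r + 1) → Q := Fin.snoc (fun c => M (a0 + s • a) (w c)) (M a t)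
  have hu : ∀ i j, L (u j) i = (1 + s • B) i j := by
    intro i j
    have h1 : u j = u0 j + s • (Fin.snoc (α := fun _ => Q) (fun c => M a (w c)) 0 j) := by
      refine Fin.lastCases ?_ ?_ j
      · simp [u, u0]
      · intro c
        simp [u, u0, hw]
    rw [h1, map_add, map_smul, hLu]
    simp only [Pi.add_apply, Pi.smul_apply, Matrix.add_apply, B]
    congr 1
    by_cases hij : i = j
    · subst hij; simp
    · simp [hij]
  have hind : LinearIndependent K u := by
    rw [Fintype.linearIndependent_iff]
    intro c hc
    have h2 : (1 + s • B).mulVec c = 0 := by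
      ext i
      have h3 := congrArg (fun q => L q i) hc
      simp only [map_sum, map_smul, Finset.sum_apply, Pi.smul_apply, smul_eq_mul, map_zero,
        Pi.zero_apply] at h3
      rw [Matrix.mulVec, dotProduct, Pi.zero_apply, ← h3]
      refine Finset.sum_congr rfl fun j _ => ?_
      rw [hu, mul_comm]
    have h4 := Matrix.eq_zero_of_mulVec_eq_zero hs h2
    intro i
    rw [h4]; rfl
  have hle : r + 1 ≤ finrank K (LinearMap.range (M (a0 + s • a))) := by
    have hmem : ∀ j, u j ∈ LinearMap.range (M (a0 + s • a)) := by
      intro j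
      refine Fin.lastCases ?_ ?_ j
      · refine ⟨s⁻¹ • t, ?_⟩
        simp [u, ht, smul_smul, inv_mul_cancel₀ hs0]
      · intro c
        exact ⟨w c, by simp [u]⟩
    let u' : Fin (r + 1) → LinearMap.range (M (a0 + s • a)) := fun j => ⟨u j, hmem j⟩
    have hu' : LinearIndependent K u' := by
      apply LinearIndependent.of_comp (LinearMap.range (M (a0 + s • a))).subtype
      exact hind
    simpa using hu'.fintype_card_le_finrank
  have := hmax (a0 + s • a)
  omega

end Pool.Agent.Helper33x.DC
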