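import Pool.Agent.Helper33x.DC.Dimen
import Pool.Agent.Helper1x.DC.Sub

/-!
# From a determinantal representation of the permanent to the dimension bound
-/

namespace Pool.Agent.Helper33x.DC

open Function Module Submodule MvPolynomial

/-- injective functions between types of the same size -/
lemma permanent_eq_inj {K : Type*} [Field K] {n : ℕ} {ρ γ : Type*} [Fintype ρ] [DecidableEq ρ]
    [Fintype γ] (er : Fin n ≃ ρ) (ec : Fin n ≃ γ) (A : ρ → γ → K) :
    (Matrix.of fun i j : Fin n => A (er i) (ec j)).permanent = inj A := by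
  classical
  rw [← inj_reindex er]
  have h1 : inj (fun r => A (er r)) = inj (fun (r : Fin n) (s : Fin n) => A (er r) (ec s)) := by
    unfold inj
    refine Fintype.sum_equiv ((Equiv.refl (Fin n)).arrowCongr ec.symm) _ _ fun f => ?_
    have h2 : ((Equiv.refl (Fin n)).arrowCongr ec.symm) f = ec.symm ∘ f := by
      funext x; simp [Equiv.arrowCongr]
    rw [h2]
    have h3 : Injective f ↔ Injective (ec.symm ∘ f) :=
      (ec.symm.injective.of_comp_iff f).symm
    by_cases hf : Injective f
    · rw [if_pos hf, if_pos (h3.1 hf)]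
      simp
    · rw [if_neg hf, if_neg (fun h => hf (h3.2 h))]
  rw [h1, ← Matrix.permanent_transpose]
  unfold Matrix.permanent inj
  refine Fintype.sum_of_injective (fun σ : Equiv.Perm (Fin n) => (σ : Fin n → Fin n)) ?_ _ _ ?_ ?_
  · intro σ τ h
    exact Equiv.ext (fun x => congrFun h x)
  · intro f hf
    rw [if_neg]
    intro hi
    exact hf ⟨Equiv.ofBijective f (Finite.injective_iff_bijective.1 hi), rfl⟩
  · intro σ
    rw [if_pos σ.injective]
    rfl

variable {K : Type*} [Field K] {M t b f p : ℕ}

/-- extension by zero -/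
def extZ (K : Type*) [Field K] {n M t b k f p : ℕ} (er : Fin n ≃ Fin M ⊕ Spec t p)
    (ec : Fin n ≃ Col t b k f) :
    (Fin M × (Fin t × Fin b) → K) →ₗ[K] (Fin n × Fin n → K) where
  toFun y q := Sum.elim (fun r => extM y r (ec q.2)) (fun _ => 0) (er q.1)
  map_add' y z := by
    funext q
    show Sum.elim (fun r => extM (y + z) r (ec q.2)) (fun _ => 0) (er q.1) =
      Sum.elim (fun r => extM y r (ec q.2)) (fun _ => 0) (er q.1) +
        Sum.elim (fun r => extM z r (ec q.2)) (fun _ => 0) (er q.1)
    rcases er q.1 with r | r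
    · exact (extL K r (ec q.2)).map_add y z
    · exact (add_zero (0 : K)).symm
  map_smul' c y := by
    funext q
    show Sum.elim (fun r => extM (c • y) r (ec q.2)) (fun _ => 0) (er q.1) =
      c * Sum.elim (fun r => extM y r (ec q.2)) (fun _ => 0) (er q.1)
    rcases er q.1 with r | r
    · exact (extL K r (ec q.2)).map_smul c y
    · exact (mul_zero c).symm

lemma extZ_apply {n k : ℕ} (er : Fin n ≃ Fin M ⊕ Spec t p) (ec : Fin n ≃ Col t b k f)
    (y : Fin M × (Fin t × Fin b) → K) (q : Fin n × Fin n) :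
    extZ K er ec y q = Sum.elim (fun r => extM y r (ec q.2)) (fun _ => 0) (er q.1) := rfl

lemma full_add {n k : ℕ} (er : Fin n ≃ Fin M ⊕ Spec t p) (ec : Fin n ≃ Col t b k f)
    (c : Fin k → K) (y : Fin M × (Fin t × Fin b) → K) (i j : Fin n) :
    full c y (er i) (ec j) = full c 0 (er i) (ec j) + extZ K er ec y (i, j) := by
  rw [extZ_apply]
  rcases er i with r | r
  · simp only [full, Sum.elim_inl]
    have : extM (0 : Fin M × (Fin t × Fin b) → K) r (ec j) = 0 := (extL K r (ec j)).map_zero
    rw [this, add_zero]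
  · simp only [full, Sum.elim_inr, add_zero]

lemma eval_perm {n : ℕ} (x : Fin n × Fin n → K) :
    eval x (Matrix.of fun i j : Fin n =>
      (X (i, j) : MvPolynomial (Fin n × Fin n) K)).permanent =
      (Matrix.of fun i j : Fin n => x (i, j)).permanent := by
  rw [Matrix.permanent, Matrix.permanent, map_sum]
  refine Finset.sum_congr rfl fun σ _ => ?_
  rw [map_prod]
  refine Finset.prod_congr rfl fun i _ => ?_
  simp

lemma le_finrank_comap {V V' : Type*} [AddCommGroup V] [Module K V] [FiniteDimensional K V]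
    [AddCommGroup V'] [Module K V'] [FiniteDimensional K V'] (J : V →ₗ[K] V')
    (W : Submodule K V') :
    finrank K V + finrank K W ≤ finrank K (W.comap J) + finrank K V' := by
  have h1 := LinearMap.finrank_range_add_finrank_ker (W.mkQ.comp J)
  have h2 : LinearMap.ker (W.mkQ.comp J) = W.comap J := by
    rw [LinearMap.ker_comp, Submodule.ker_mkQ]
  have h3 : finrank K (LinearMap.range (W.mkQ.comp J)) ≤ finrank K (V' ⧸ W) :=
    Submodule.finrank_le _
  have h4 := Submodule.finrank_quotient_add_finrank W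
  rw [h2] at h1
  omega

/-- the base point -/
def basePt {n k : ℕ} (er : Fin n ≃ Fin M ⊕ Spec t p) (ec : Fin n ≃ Col t b k f) (c : Fin k → K) :
    Fin n × Fin n → K := fun q => full c 0 (er q.1) (ec q.2)

lemma inj_full_zero [CharZero K] (hcard : M + (t * p + 1) = t * (b + (p + 1)) + f)
    (c : Fin (p + 1) → K)
    (hc : ∀ β ≤ p + 1, ∀ m ≤ p + 1,
      ((1 + Polynomial.X) ^ (b - β) * ∏ r, (1 + Polynomial.C (c r) * Polynomial.X) :
        Polynomial K).coeff m =
        ((1 + Polynomial.X) ^ (p + 1 - β) - Polynomial.X ^ (p + 1) : Polynomial K).coeff m) :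
    inj (full c 0 : Fin M ⊕ Spec t p → Col t b (p + 1) f → K) = 0 := by
  classical
  have h1 : (full c 0 : Fin M ⊕ Spec t p → Col t b (p + 1) f → K) =
      fun q => Sum.elim (spec c) (fun (_ : Fin M) (_ : Col t b (p + 1) f) => (1 : K))
        (Equiv.sumComm _ _ q) := by
    funext q x
    rcases q with q | q
    · simp only [full, Sum.elim_inl, Equiv.sumComm_apply, Sum.swap_inl, Sum.elim_inr]
      have : extM (0 : Fin M × (Fin t × Fin b) → K) q x = 0 := (extL K q x).map_zero
      rw [this, add_zero]
    · simp only [full, Sum.elim_inl, Equiv.sumComm_apply, Sum.swap_inr, Sum.elim_inr]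
  rw [h1, inj_reindex (Equiv.sumComm (Fin M) (Spec t p)) (Sum.elim (spec c)
    (fun (_ : Fin M) (_ : Col t b (p + 1) f) => (1 : K))), inj_ones]
  · have h2 := inj_mask (f := f) c hc (∅ : Finset (Fin t × Fin b)) (by intro a; simp [nrem])
    have h3 : (mask c ∅ : Spec t p → Col t b (p + 1) f → K) = spec c := by
      funext q x
      simp [mask]
    have h4 : nrem (∅ : Finset (Fin t × Fin b)) = fun _ => 0 := by
      funext a; simp [nrem]
    rw [h3, h4, Xhat_zero] at h2
    rw [h2, mul_zero]
  · rw [Fintype.card_sum, Fintype.card_sum, Fintype.card_prod, Fintype.card_prod,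
      Fintype.card_sum]
    simp only [Fintype.card_fin, Fintype.card_unit]
    omega

theorem reduce [CharZero K] [IsAlgClosed K] [NeZero M] [NeZero t] (hp : 1 ≤ p)
    (hb : p + 1 ≤ b) (hcard : M + (t * p + 1) = t * (b + (p + 1)) + f) {R : ℕ} (hR : 0 < R)
    {n m : ℕ} (hn : n = t * (b + (p + 1)) + f)
    (A : Matrix (Fin m) (Fin m) (MvPolynomial (Fin n × Fin n) K))
    (hA : ∀ i j, (A i j).totalDegree ≤ 1)
    (hdet : A.det = (Matrix.of fun i j : Fin n =>
      (X (i, j) : MvPolynomial (Fin n × Fin n) K)).permanent) :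
    (p + 1) * (R * (M * (t * b))) ≤ (p + 1) * (R * m) +
      ((p + 1) * (R * (M * t)) + R * (M * (t * b)) +
      (p + 1) * (p * (p * (M * (t * b)) +
        p * R ^ (p + 1) * ((t * b ^ (p + 1) + M * t) * cnt (p + 1))))) := by
  classical
  have : NeZero b := ⟨by omega⟩
  obtain ⟨c, hc⟩ := exists_weights (K := K) (p + 1) b (by omega) hb
  have er : Fin n ≃ Fin M ⊕ Spec t p := Fintype.equivOfCardEq (by
    rw [Fintype.card_sum, Fintype.card_sum, Fintype.card_prod]
    simp only [Fintype.card_fin, Fintype.card_unit]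
    omega)
  have ec : Fin n ≃ Col t b (p + 1) f := Fintype.equivOfCardEq (by
    rw [Fintype.card_sum, Fintype.card_prod, Fintype.card_sum]
    simp only [Fintype.card_fin]
    exact hn)
  have h0 : eval (basePt er ec c) A.det = 0 := by
    rw [hdet, eval_perm]
    exact (permanent_eq_inj er ec (full c 0)).trans (inj_full_zero hcard c hc)
  obtain ⟨W', hdim, hW'⟩ := H1DC.exists_subspace A hA (basePt er ec c) h0
  have h1 := le_finrank_comap (extZ K er ec) W'
  rw [Module.finrank_fintype_fun_eq_card, Module.finrank_fintype_fun_eq_card] at h1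
  have hcX : Fintype.card (Fin M × (Fin t × Fin b)) = M * (t * b) := by simp
  rw [hcX] at h1
  have h2 := dim_main (K := K) (R := R) hp hcard c hc (W'.comap (extZ K er ec)) (by
    intro w hw
    rw [← permanent_eq_inj er ec (full c w)]
    have h3 := hW' _ hw
    rw [hdet, eval_perm] at h3
    rw [← h3]
    congr 2
    funext i j
    rw [full_add]
    rfl) hR
  have h4 : M * (t * b) ≤ finrank K (W'.comap (extZ K er ec)) + m := by omega
  have h5 : (p + 1) * (R * (M * (t * b))) ≤
      (p + 1) * (R * finrank K (W'.comap (extZ K er ec))) + (p + 1) * (R * m) := by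
    rw [← Nat.mul_add, ← Nat.mul_add]
    exact Nat.mul_le_mul_left _ (Nat.mul_le_mul_left _ h4)
  omega

end Pool.Agent.Helper33x.DC
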