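import Pool.Agent.Helper33x.DC.Saturate

/-!
# Power sum forms of low partition rank vanish on subspaces of small codimension
-/

namespace Pool.Agent.Helper33x.DC

open Module Submodule Function

variable {K : Type*} [Field K] {X : Type*} [Fintype X]

/-- the polarised power sum `∑_x ∏_i v_i(x)` -/
def psum {j : ℕ} (v : Fin j → X → K) : K := ∑ x, ∏ i, v i x

/-- On `W` the polarised power sum is a sum of `S` products `g h`, where `g` is multilinear in a
nonempty set `B` of arguments of index at least `q`. -/
def Rep (W : Submodule K (X → K)) (j q S : ℕ) : Prop :=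
  ∃ (I : Type) (_ : Fintype I) (B : I → Finset (Fin j)) (g h : I → (Fin j → X → K) → K),
    Fintype.card I ≤ S ∧ (∀ s, (B s).Nonempty) ∧ (∀ s, ∀ i ∈ B s, q ≤ (i : ℕ)) ∧
    (∀ s v v', (∀ i ∈ B s, v i = v' i) → g s v = g s v') ∧
    (∀ s, ∀ i ∈ B s, ∀ v x y, ∀ c : K,
      g s (update v i (x + c • y)) = g s (update v i x) + c * g s (update v i y)) ∧
    ∀ v, (∀ i, v i ∈ W) → psum v = ∑ s, g s v * h s v

/-- the same with sets of at least two elements -/
def Rep2 (W : Submodule K (X → K)) (j q S : ℕ) : Prop :=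
  ∃ (I : Type) (_ : Fintype I) (B : I → Finset (Fin j)) (g h : I → (Fin j → X → K) → K),
    Fintype.card I ≤ S ∧ (∀ s, 2 ≤ (B s).card) ∧ (∀ s, ∀ i ∈ B s, q ≤ (i : ℕ)) ∧
    (∀ s v v', (∀ i ∈ B s, v i = v' i) → g s v = g s v') ∧
    (∀ s, ∀ i ∈ B s, ∀ v x y, ∀ c : K,
      g s (update v i (x + c • y)) = g s (update v i x) + c * g s (update v i y)) ∧
    ∀ v, (∀ i, v i ∈ W) → psum v = ∑ s, g s v * h s v

lemma finrank_le_inf_ker {V : Type*} [AddCommGroup V] [Module K V] [FiniteDimensional K V]
    (W : Submodule K V) {I : Type*} [Fintype I] (L : V →ₗ[K] (I → K)) :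
    finrank K W ≤ finrank K (W ⊓ LinearMap.ker L : Submodule K V) + Fintype.card I := by
  have h1 := LinearMap.finrank_range_add_finrank_ker (L.domRestrict W)
  have h2 : finrank K (LinearMap.range (L.domRestrict W)) ≤ Fintype.card I := by
    have := Submodule.finrank_le (LinearMap.range (L.domRestrict W))
    simpa using this
  have h3 : finrank K (LinearMap.ker (L.domRestrict W)) =
      finrank K (W ⊓ LinearMap.ker L : Submodule K V) := by
    rw [← Submodule.finrank_map_subtype_eq W (LinearMap.ker (L.domRestrict W))]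
    suffices hs : (LinearMap.ker (L.domRestrict W)).map W.subtype = W ⊓ LinearMap.ker L by
      rw [hs]
    ext x
    simp only [Submodule.mem_map, LinearMap.mem_ker, Submodule.subtype_apply,
      Submodule.mem_inf]
    constructor
    · rintro ⟨y, hy, rfl⟩; exact ⟨y.2, hy⟩
    · rintro ⟨hx, hx2⟩; exact ⟨⟨x, hx⟩, hx2, rfl⟩
  omega

/-- killing the singletons -/
lemma Rep.kill {W : Submodule K (X → K)} {j q S : ℕ} (hR : Rep W j q S) :
    ∃ W' ≤ W, finrank K W ≤ finrank K W' + S ∧ Rep2 W' j q S := by
  classical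
  obtain ⟨I, hI, B, g, h, hcard, hne, hq, hdep, hlin, hrep⟩ := hR
  choose i hi using hne
  have hzero : ∀ s, g s (update 0 (i s) 0) = 0 := by
    intro s
    have h2 := hlin s _ (hi s) 0 0 0 1
    rw [one_smul, one_mul, add_zero] at h2
    simpa using h2
  let L : (X → K) →ₗ[K] (I → K) :=
    { toFun := fun x s => g s (update 0 (i s) x)
      map_add' := by
        intro x y
        ext s
        have := hlin s _ (hi s) 0 x y 1
        rw [one_smul, one_mul] at this
        exact this
      map_smul' := by
        intro c x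
        ext s
        have h1 := hlin s _ (hi s) 0 0 x c
        rw [hzero, zero_add, zero_add] at h1
        exact h1 }
  refine ⟨W ⊓ LinearMap.ker L, inf_le_left, (finrank_le_inf_ker W L).trans (by omega), ?_⟩
  refine ⟨{s : I // 2 ≤ (B s).card}, inferInstance, fun s => B s, fun s => g s, fun s => h s,
    ?_, fun s => s.2, fun s => hq s, fun s => hdep s, fun s => hlin s, ?_⟩
  · exact (Fintype.card_subtype_le _).trans hcard
  · intro v hv
    rw [hrep v fun i => (hv i).1]
    rw [← Finset.sum_filter_add_sum_filter_not Finset.univ (fun s => 2 ≤ (B s).card)]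
    have h1 : ∑ s ∈ Finset.univ.filter (fun s => ¬ 2 ≤ (B s).card), g s v * h s v = 0 := by
      refine Finset.sum_eq_zero fun s hs => ?_
      have hs2 : ¬ 2 ≤ (B s).card := (Finset.mem_filter.1 hs).2
      have hs1 : (B s).card = 1 := by
        have := Finset.card_pos.2 ⟨_, hi s⟩
        omega
      have hk : L (v (i s)) = 0 := LinearMap.mem_ker.1 (hv _).2
      have hk2 : g s (update 0 (i s) (v (i s))) = 0 := congrFun hk s
      rw [hdep s v (update 0 (i s) (v (i s))), hk2, zero_mul]
      intro i' hi'
      obtain ⟨c, hc⟩ := Finset.card_eq_one.1 hs1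
      have h1 := hi s
      rw [hc, Finset.mem_singleton] at hi' h1
      rw [hi', h1, update_self]
    rw [h1, add_zero]
    exact (Finset.sum_subtype (p := fun s => 2 ≤ (B s).card)
      (Finset.univ.filter (fun s => 2 ≤ (B s).card)) (by simp) fun s => g s v * h s v)

variable [Infinite K]

/-- one step of the elimination -/
lemma Rep2.move {W : Submodule K (X → K)} {j q S : ℕ} (hR : Rep2 W j q S) (hq1 : 1 ≤ q)
    (hqj : q < j) {R : ℕ} (hR0 : 0 < R) :
    ∃ T ≤ W, R * finrank K W ≤ Fintype.card X + R * finrank K T ∧ Rep T j (q + 1) (R * S) := by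
  classical
  obtain ⟨I, hI, B, g, h, hcard, h2, hq, hdep, hlin, hrep⟩ := hR
  obtain ⟨a, T, ha, hTW, hdim, hprod⟩ := saturation W R hR0
  refine ⟨T, hTW, hdim, ?_⟩
  let i0 : Fin j := ⟨0, by omega⟩
  let iq : Fin j := ⟨q, hqj⟩
  have hne : i0 ≠ iq := by
    intro h
    have := congrArg Fin.val h
    simp only [i0, iq] at this
    omega
  have hex : ∀ v : Fin j → X → K, ∃ τ : ℕ → X → K, (v i0 ∈ T → v iq ∈ W →
      (∀ l, τ l ∈ W) ∧ v i0 * v iq = ∑ l ∈ Finset.range R, a l * τ l) := by
    intro v
    by_cases h1 : v i0 ∈ T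
    · by_cases h2 : v iq ∈ W
      · obtain ⟨τ, hτ⟩ := hprod _ h1 _ h2
        exact ⟨τ, fun _ _ => hτ⟩
      · exact ⟨0, fun _ h => absurd h h2⟩
    · exact ⟨0, fun h => absurd h h1⟩
  choose τ hτ using hex
  refine ⟨Fin R × I, inferInstance, fun s => (B s.2).erase iq,
    fun s v => g s.2 (update v iq (a s.1)),
    fun s v => h s.2 (update (update v i0 (τ v s.1)) iq (a s.1)), ?_, ?_, ?_, ?_, ?_, ?_⟩
  · rw [Fintype.card_prod, Fintype.card_fin]
    exact Nat.mul_le_mul_left _ hcard
  · intro s
    have h3 := h2 s.2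
    have h4 := Finset.pred_card_le_card_erase (s := B s.2) (a := iq)
    have h5 : 0 < ((B s.2).erase iq).card := by omega
    exact Finset.card_pos.1 h5
  · intro s i hi
    obtain ⟨hi1, hi2⟩ := Finset.mem_erase.1 hi
    have h3 := hq s.2 i hi2
    have h4 : (i : ℕ) ≠ q := fun h => hi1 (Fin.ext h)
    omega
  · intro s v v' hvv
    apply hdep
    intro i hi
    by_cases hiq : i = iq
    · rw [hiq, update_self, update_self]
    · rw [update_of_ne hiq, update_of_ne hiq]
      exact hvv i (Finset.mem_erase.2 ⟨hiq, hi⟩)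
  · intro s i hi v x y c
    obtain ⟨hi1, hi2⟩ := Finset.mem_erase.1 hi
    have h3 := hlin s.2 i hi2 (update v iq (a s.1)) x y c
    rw [update_comm hi1.symm, update_comm hi1.symm, update_comm hi1.symm] at h3
    exact h3
  · intro v hv
    obtain ⟨hτ1, hτ2⟩ := hτ v (hv i0) (hTW (hv iq))
    have hmain : psum v = ∑ l : Fin R, psum (update (update v i0 (τ v l)) iq (a l)) := by
      have hsplit : ∀ (u : Fin j → X → K) (x : X), ∏ i, u i x =
          (u i0 x * u iq x) * ∏ i ∈ (Finset.univ.erase i0).erase iq, u i x := by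
        intro u x
        rw [← Finset.mul_prod_erase Finset.univ (fun i => u i x) (Finset.mem_univ i0),
          ← Finset.mul_prod_erase (Finset.univ.erase i0) (fun i => u i x)
            (Finset.mem_erase.2 ⟨hne.symm, Finset.mem_univ iq⟩), mul_assoc]
      unfold psum
      rw [Finset.sum_comm]
      refine Finset.sum_congr rfl fun x _ => ?_
      rw [hsplit v x]
      have h5 := congrFun hτ2 x
      rw [Pi.mul_apply, Finset.sum_apply] at h5
      rw [h5, Finset.sum_range, Finset.sum_mul]
      refine Finset.sum_congr rfl fun l _ => ?_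
      rw [hsplit _ x, update_self, update_of_ne hne, update_self, Pi.mul_apply]
      rw [mul_comm (a l x)]
      congr 1
      refine Finset.prod_congr rfl fun i hi => ?_
      obtain ⟨hi1, hi2⟩ := Finset.mem_erase.1 hi
      have hi3 := (Finset.mem_erase.1 hi2).1
      rw [update_of_ne hi1, update_of_ne hi3]
    rw [hmain, Fintype.sum_prod_type]
    refine Finset.sum_congr rfl fun l _ => ?_
    rw [hrep]
    · refine Finset.sum_congr rfl fun s _ => ?_
      congr 1
      apply hdep
      intro i hi
      by_cases hiq : i = iq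
      · rw [hiq, update_self, update_self]
      · rw [update_of_ne hiq, update_of_ne hiq]
        have : i ≠ i0 := by
          intro h
          have h6 := hq s i hi
          rw [h] at h6
          simp only [i0] at h6
          omega
        rw [update_of_ne this]
    · intro i
      by_cases hiq : i = iq
      · rw [hiq, update_self]; exact ha l
      · rw [update_of_ne hiq]
        by_cases hi0 : i = i0
        · rw [hi0, update_self]; exact hτ1 l
        · rw [update_of_ne hi0]; exact hTW (hv i)

/-- **Robust lemma.** If the polarised power sum of order `j` on `W` is a sum of few products, then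
it vanishes on a subspace of small codimension. -/
theorem Rep.robust {j R : ℕ} (hR0 : 0 < R) (n : ℕ) : ∀ {W : Submodule K (X → K)} {q S : ℕ},
    1 ≤ q → q + n = j → Rep W j q S →
    ∃ W' ≤ W, R * finrank K W ≤ R * finrank K W' + n * Fintype.card X + n * R ^ (n + 1) * S ∧
      ∀ v : Fin j → X → K, (∀ i, v i ∈ W') → psum v = 0 := by
  induction n with
  | zero =>
    intro W q S hq hqj hRep
    obtain ⟨I, hI, B, g, h, hcard, hne, hqB, hdep, hlin, hrep⟩ := hRep
    have : IsEmpty I := by
      refine ⟨fun s => ?_⟩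
      obtain ⟨i, hi⟩ := hne s
      have h1 := hqB s i hi
      have h2 := i.2
      omega
    refine ⟨W, le_rfl, by simp, fun v hv => ?_⟩
    rw [hrep v hv]
    simp
  | succ n ih =>
    intro W q S hq hqj hRep
    obtain ⟨W1, hW1, hd1, hR1⟩ := hRep.kill
    obtain ⟨T, hT, hd2, hR2⟩ := hR1.move hq (by omega) hR0
    obtain ⟨W', hW', hd3, hz⟩ := ih (by omega) (by omega) hR2
    refine ⟨W', hW'.trans (hT.trans hW1), ?_, hz⟩
    have h1 : R * finrank K W ≤ R * finrank K W1 + R * S := by
      rw [← Nat.mul_add]; exact Nat.mul_le_mul_left _ hd1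
    have h2 : R * S ≤ R ^ (n + 2) * S := by
      apply Nat.mul_le_mul_right
      calc R = R ^ 1 := (pow_one R).symm
        _ ≤ R ^ (n + 2) := Nat.pow_le_pow_right hR0 (by omega)
    have h3 : n * R ^ (n + 1) * (R * S) = n * (R ^ (n + 2) * S) := by ring
    have h4 : (n + 1) * R ^ (n + 1 + 1) * S = n * (R ^ (n + 2) * S) + R ^ (n + 2) * S := by ring
    rw [h4, Nat.add_mul, one_mul]
    rw [h3] at hd3
    omega

end Pool.Agent.Helper33x.DC
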