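import Pool.Agent.Helper33x.DC.MaxRank

/-!
# Few multipliers generate the products of a large subspace
-/

namespace Pool.Agent.Helper33x.DC

open Module Submodule

variable {K : Type*} [Field K] {X : Type*} [Fintype X]

/-- the subspace `a W` of the algebra of functions -/
noncomputable def mulSub (a : X → K) (W : Submodule K (X → K)) : Submodule K (X → K) :=
  W.map (LinearMap.mulLeft K a)

lemma finrank_map_mkQ (S P : Submodule K (X → K)) :
    finrank K (P.map S.mkQ) + finrank K S = finrank K (S ⊔ P : Submodule K (X → K)) := by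
  have h1 := LinearMap.finrank_range_add_finrank_ker (S.mkQ.domRestrict (S ⊔ P))
  have h2 : LinearMap.range (S.mkQ.domRestrict (S ⊔ P)) = P.map S.mkQ := by
    rw [LinearMap.domRestrict, LinearMap.range_comp, Submodule.range_subtype, Submodule.map_sup]
    have : S.map S.mkQ = ⊥ := by
      rw [← le_bot_iff, Submodule.map_le_iff_le_comap, ← LinearMap.ker, Submodule.ker_mkQ]
    rw [this, bot_sup_eq]
  have h3 : finrank K (LinearMap.ker (S.mkQ.domRestrict (S ⊔ P))) = finrank K S := by
    have : LinearMap.ker (S.mkQ.domRestrict (S ⊔ P)) = S.comap (S ⊔ P).subtype := by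
      rw [LinearMap.domRestrict, LinearMap.ker_comp, Submodule.ker_mkQ]
    rw [this]
    exact (Submodule.comapSubtypeEquivOfLe le_sup_left).finrank_eq
  rw [h2, h3] at h1
  exact h1

lemma exists_pick (S W : Submodule K (X → K)) : ∃ a ∈ W, ∀ a' ∈ W,
    finrank K (S ⊔ mulSub a' W : Submodule K (X → K)) ≤
      finrank K (S ⊔ mulSub a W : Submodule K (X → K)) := by
  classical
  let f : W → ℕ := fun a => finrank K (S ⊔ mulSub (a : X → K) W : Submodule K (X → K))
  have hbdd : BddAbove (Set.range f) := by
    refine ⟨Fintype.card X, ?_⟩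
    rintro _ ⟨a, rfl⟩
    have := Submodule.finrank_le (S ⊔ mulSub (a : X → K) W : Submodule K (X → K))
    simpa [f] using this
  obtain ⟨a, ha⟩ := Nat.sSup_mem (Set.range_nonempty f) hbdd
  refine ⟨a, a.2, fun a' ha' => ?_⟩
  have h1 : f ⟨a', ha'⟩ ≤ sSup (Set.range f) := le_csSup hbdd ⟨_, rfl⟩
  rw [← ha] at h1
  exact h1

/-- greedy choice -/
noncomputable def pick (S W : Submodule K (X → K)) : X → K := (exists_pick S W).choose

lemma pick_mem (S W : Submodule K (X → K)) : pick S W ∈ W := (exists_pick S W).choose_spec.1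

lemma pick_spec (S W : Submodule K (X → K)) (a' : X → K) (ha' : a' ∈ W) :
    finrank K (S ⊔ mulSub a' W : Submodule K (X → K)) ≤
      finrank K (S ⊔ mulSub (pick S W) W : Submodule K (X → K)) :=
  (exists_pick S W).choose_spec.2 a' ha'

/-- the spans of the first products -/
noncomputable def seqS (W : Submodule K (X → K)) : ℕ → Submodule K (X → K)
  | 0 => ⊥
  | (i + 1) => seqS W i ⊔ mulSub (pick (seqS W i) W) W

lemma seqS_repr (W : Submodule K (X → K)) (i : ℕ) : ∀ x ∈ seqS W i,
    ∃ τ : ℕ → X → K, (∀ l, τ l ∈ W) ∧ x = ∑ l ∈ Finset.range i, pick (seqS W l) W * τ l := by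
  induction i with
  | zero =>
    intro x hx
    refine ⟨fun _ => 0, fun _ => W.zero_mem, ?_⟩
    have : x = 0 := by simpa [seqS] using hx
    simp [this]
  | succ i ih =>
    intro x hx
    rw [seqS] at hx
    obtain ⟨y, hy, z, hz, rfl⟩ := Submodule.mem_sup.1 hx
    obtain ⟨w, hw, rfl⟩ := hz
    obtain ⟨τ, hτ, rfl⟩ := ih y hy
    refine ⟨fun l => if l = i then w else τ l, ?_, ?_⟩
    · intro l
      by_cases h : l = i
      · simpa [h] using hw
      · simpa [h] using hτ l
    · rw [Finset.sum_range_succ]
      congr 1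
      · refine Finset.sum_congr rfl fun l hl => ?_
        have : l ≠ i := (Finset.mem_range.1 hl).ne
        simp [this]
      · simp

/-- multiplication modulo a subspace -/
noncomputable def mulMod (S W : Submodule K (X → K)) : W →ₗ[K] W →ₗ[K] ((X → K) ⧸ S) :=
  ((LinearMap.mul K (X → K)).domRestrict₁₂ W W).compr₂ S.mkQ

omit [Fintype X] in
lemma mulMod_apply (S W : Submodule K (X → K)) (a w : W) :
    mulMod S W a w = S.mkQ ((a : X → K) * (w : X → K)) := rfl

omit [Fintype X] in
lemma range_mulMod (S W : Submodule K (X → K)) (a : W) :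
    LinearMap.range (mulMod S W a) = (mulSub (a : X → K) W).map S.mkQ := by
  ext q
  constructor
  · rintro ⟨w, rfl⟩
    exact ⟨_, ⟨w, w.2, rfl⟩, rfl⟩
  · rintro ⟨_, ⟨w, hw, rfl⟩, rfl⟩
    exact ⟨⟨w, hw⟩, rfl⟩

variable [Infinite K]

/-- **Saturation lemma.** There are `R` elements `a_l` of `W` and a subspace `T` of `W` of
codimension at most `|X| / R` such that `T W ⊆ ∑ a_l W`. -/
theorem saturation (W : Submodule K (X → K)) (R : ℕ) (hR : 0 < R) :
    ∃ (a : ℕ → X → K) (T : Submodule K (X → K)), (∀ l, a l ∈ W) ∧ T ≤ W ∧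
      R * finrank K W ≤ Fintype.card X + R * finrank K T ∧
      ∀ t ∈ T, ∀ w ∈ W, ∃ τ : ℕ → X → K, (∀ l, τ l ∈ W) ∧
        t * w = ∑ l ∈ Finset.range R, a l * τ l := by
  classical
  let d : ℕ → ℕ := fun i => finrank K (seqS W i)
  have hmono : ∀ i, d i ≤ d (i + 1) := fun i =>
    Submodule.finrank_mono (by rw [seqS]; exact le_sup_left)
  have hdle : d R ≤ Fintype.card X := by
    have := Submodule.finrank_le (seqS W R)
    simpa [d] using this
  have hpig : ∃ i < R, R * (d (i + 1) - d i) ≤ Fintype.card X := by
    by_contra hcon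
    push Not at hcon
    have hind : ∀ i ≤ R, i * (Fintype.card X + 1) ≤ R * d i := by
      intro i
      induction i with
      | zero => intro _; simp
      | succ i ih =>
        intro hi
        have h1 := ih (by omega)
        have h2 := hcon i (by omega)
        have h3 := hmono i
        have h4 : R * d (i + 1) = R * d i + R * (d (i + 1) - d i) := by
          rw [← Nat.mul_add]; congr 1; omega
        rw [h4]
        nlinarith
    have h1 := hind R le_rfl
    have h2 : R * d R ≤ R * Fintype.card X := Nat.mul_le_mul_left _ hdle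
    nlinarith
  obtain ⟨i, hiR, hi⟩ := hpig
  let S := seqS W i
  let p : W := ⟨pick S W, pick_mem S W⟩
  let T : Submodule K (X → K) := (LinearMap.ker (mulMod S W p)).map W.subtype
  refine ⟨fun l => pick (seqS W l) W, T, fun l => pick_mem _ _, ?_, ?_, ?_⟩
  · rintro _ ⟨w, _, rfl⟩; exact w.2
  · have h1 := LinearMap.finrank_range_add_finrank_ker (mulMod S W p)
    have h2 : finrank K T = finrank K (LinearMap.ker (mulMod S W p)) :=
      Submodule.finrank_map_subtype_eq _ _
    have h3 := finrank_map_mkQ S (mulSub (p : X → K) W)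
    rw [← range_mulMod] at h3
    have h4 : d (i + 1) = finrank K (S ⊔ mulSub (p : X → K) W : Submodule K (X → K)) := rfl
    have h5 : d i = finrank K S := rfl
    have h6 : finrank K (LinearMap.range (mulMod S W p)) = d (i + 1) - d i := by omega
    rw [← h2, h6] at h1
    rw [← h1, Nat.mul_add]
    omega
  · rintro _ ⟨t, ht, rfl⟩ w hw
    have hmax : ∀ a : W, finrank K (LinearMap.range (mulMod S W a)) ≤
        finrank K (LinearMap.range (mulMod S W p)) := by
      intro a
      have h1 := finrank_map_mkQ S (mulSub (a : X → K) W)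
      have h2 := finrank_map_mkQ S (mulSub (p : X → K) W)
      rw [← range_mulMod] at h1 h2
      have h3 := pick_spec S W a a.2
      have h4 : finrank K (S ⊔ mulSub (pick S W) W : Submodule K (X → K)) =
        finrank K (S ⊔ mulSub (p : X → K) W : Submodule K (X → K)) := rfl
      omega
    have h1 := mem_range_of_maxRank (mulMod S W) p hmax t ht ⟨w, hw⟩
    rw [range_mulMod] at h1
    obtain ⟨y, hy, hy2⟩ := h1
    have h2 : (t : X → K) * w ∈ seqS W (i + 1) := by
      rw [mulMod_apply] at hy2
      have h3 : w * (t : X → K) - y ∈ S := by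
        rw [← Submodule.ker_mkQ S, LinearMap.mem_ker, map_sub, sub_eq_zero]
        exact hy2.symm
      rw [seqS, mul_comm]
      have : w * (t : X → K) = (w * (t : X → K) - y) + y := by ring
      rw [this]
      exact Submodule.add_mem_sup h3 hy
    obtain ⟨τ, hτ, h3⟩ := seqS_repr W (i + 1) _ h2
    refine ⟨fun l => if l < i + 1 then τ l else 0, ?_, ?_⟩
    · intro l
      by_cases h : l < i + 1
      · simpa [h] using hτ l
      · simp [h]
    · have h4 : (W.subtype t) * w = (t : X → K) * w := rfl
      rw [h4, h3]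
      have hsub : Finset.range (i + 1) ⊆ Finset.range R := by
        intro x; simp only [Finset.mem_range]; omega
      rw [← Finset.sum_subset hsub]
      · refine Finset.sum_congr rfl fun l hl => ?_
        have : l < i + 1 := Finset.mem_range.1 hl
        simp only [this, if_true]
      · intro l _ hl
        have : ¬ l < i + 1 := fun h => hl (Finset.mem_range.2 h)
        simp only [this, if_false, mul_zero]

end Pool.Agent.Helper33x.DC
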