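import Pool.Agent.Helper33x.DC.Gadget

/-!
# The Taylor forms of the permanent at the base point
-/

namespace Pool.Agent.Helper33x.DC

open Function

/-- choosing the rows where the variables are taken; the other main rows are filled with ones -/
lemma sum_extend {K T γ : Type*} [Field K] [Fintype T] [DecidableEq T] [Fintype γ] {M j : ℕ}
    (i : Fin j → Fin M) (hi : Injective i) (A : Fin j → γ → K) (B : T → γ → K)
    (hcard : M + Fintype.card T = Fintype.card γ) :
    ∑ f : Fin M ⊕ T → γ, (open Classical in if Injective f then ∏ q, B q (f (Sum.inr q)) else 0) *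
      ∏ s, A s (f (Sum.inl (i s))) = ((M - j).factorial : K) * inj (Sum.elim A B) := by
  classical
  have hcR : Fintype.card {r : Fin M // r ∉ Set.range i} = M - j := by
    rw [Fintype.card_subtype]
    have h4 := Finset.card_filter_add_card_filter_not (s := (Finset.univ : Finset (Fin M)))
          (fun r => r ∈ Set.range i)
    have h5 : (Finset.univ.filter (fun r => r ∈ Set.range i)).card = j := by
      have : Finset.univ.filter (fun r => r ∈ Set.range i) = Finset.univ.image i := by
        ext c; simp
      rw [this, Finset.card_image_of_injective _ hi, Finset.card_univ, Fintype.card_fin]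
    rw [Finset.card_univ, Fintype.card_fin] at h4
    omega
  have hjM : j ≤ M := by
    have := Fintype.card_le_of_injective i hi
    simpa using this
  have h1 := inj_ones (ρ₁ := Fin j ⊕ T) (ρ₂ := {r : Fin M // r ∉ Set.range i})
    (Sum.elim A B) (by
      rw [Fintype.card_sum, Fintype.card_fin, hcR]; omega)
  rw [hcR] at h1
  rw [← h1]
  let e0 : (Fin j ⊕ T) ⊕ {r : Fin M // r ∉ Set.range i} → Fin M ⊕ T :=
    Sum.elim (Sum.elim (fun s => Sum.inl (i s)) Sum.inr) (fun r => Sum.inl r.1)
  have he0 : Bijective e0 := by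
    constructor
    · rintro ((s | q) | r) ((s' | q') | r') h
      · simp only [e0, Sum.elim_inl, Sum.inl.injEq] at h
        rw [hi h]
      · simp [e0] at h
      · simp only [e0, Sum.elim_inl, Sum.elim_inr, Sum.inl.injEq] at h
        exact absurd ⟨s, h⟩ r'.2
      · simp [e0] at h
      · simp only [e0, Sum.elim_inl, Sum.elim_inr, Sum.inr.injEq] at h
        rw [h]
      · simp [e0] at h
      · simp only [e0, Sum.elim_inl, Sum.elim_inr, Sum.inl.injEq] at h
        exact absurd ⟨s', h.symm⟩ r.2
      · simp [e0] at h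
      · simp only [e0, Sum.elim_inr, Sum.inl.injEq] at h
        rw [Subtype.ext h]
    · rintro (r | q)
      · by_cases hr : r ∈ Set.range i
        · obtain ⟨s, hs⟩ := hr
          exact ⟨Sum.inl (Sum.inl s), by simp [e0, hs]⟩
        · exact ⟨Sum.inr ⟨r, hr⟩, by simp [e0]⟩
      · exact ⟨Sum.inl (Sum.inr q), by simp [e0]⟩
  let e := Equiv.ofBijective e0 he0
  unfold inj
  refine Fintype.sum_equiv (e.arrowCongr (Equiv.refl γ)).symm _ _ fun f => ?_
  have h2 : (e.arrowCongr (Equiv.refl γ)).symm f = f ∘ e := by
    funext x; simp [Equiv.arrowCongr]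
  rw [h2]
  have h3 : Injective f ↔ Injective (f ∘ e) := by
    constructor
    · intro h; exact h.comp e.injective
    · intro h
      have := h.comp e.symm.injective
      have h3 : (f ∘ e) ∘ e.symm = f := by funext x; simp
      rwa [h3] at this
  by_cases hf : Injective f
  · rw [if_pos hf, if_pos (h3.1 hf), Fintype.prod_sum_type, Fintype.prod_sum_type]
    simp only [Sum.elim_inl, Sum.elim_inr, Finset.prod_const_one, mul_one, Function.comp]
    rw [mul_comm]
    rfl
  · rw [if_neg hf, if_neg (fun h => hf (h3.2 h)), zero_mul]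

section

variable {K : Type*} [Field K] {M t b k f p : ℕ}

/-- the entry of a main row -/
def extM (y : Fin M × (Fin t × Fin b) → K) (r : Fin M) (x : Col t b k f) : K :=
  Sum.elim (fun q => Sum.elim (fun d => y (r, (q.1, d))) (fun _ => 0) q.2) (fun _ => 0) x

lemma extM_mainCol (y : Fin M × (Fin t × Fin b) → K) (r : Fin M) (q : Fin t × Fin b) :
    extM y r (mainCol q : Col t b k f) = y (r, q) := rfl

lemma extM_of_notMem (y : Fin M × (Fin t × Fin b) → K) (r : Fin M) (x : Col t b k f)
    (hx : x ∉ Set.range (mainCol : Fin t × Fin b → Col t b k f)) : extM y r x = 0 := by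
  rcases x with ⟨a, d | d⟩ | x
  · exact absurd ⟨(a, d), rfl⟩ hx
  · rfl
  · rfl

/-- the linear map `y ↦ extM y r x` -/
def extL (K : Type*) [Field K] {M t b k f : ℕ} (r : Fin M) (x : Col t b k f) :
    (Fin M × (Fin t × Fin b) → K) →ₗ[K] K where
  toFun y := extM y r x
  map_add' y z := by
    rcases x with ⟨a, d | d⟩ | x <;> simp [extM]
  map_smul' c y := by
    rcases x with ⟨a, d | d⟩ | x <;> simp [extM]

/-- the whole matrix -/
def full (c : Fin k → K) (y : Fin M × (Fin t × Fin b) → K) :
    Fin M ⊕ Spec t p → Col t b k f → K :=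
  Sum.elim (fun r x => 1 + extM y r x) (spec c)

/-- number of arguments of class `a` -/
def cntc {j : ℕ} (α : Fin j → Fin t) (a : Fin t) : ℕ := (Finset.univ.filter fun s => α s = a).card

open Classical in
lemma nrem_image {j : ℕ} (κ : Fin j → Fin t × Fin b) (hκ : Injective κ) :
    nrem (Finset.univ.image κ) = cntc (fun s => (κ s).1) := by
  funext a
  unfold nrem cntc
  have h1 : (Finset.univ.filter fun d : Fin b => (a, d) ∈ Finset.univ.image κ) =
      (Finset.univ.filter fun s => (κ s).1 = a).image (fun s => (κ s).2) := by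
    ext d
    simp only [Finset.mem_filter, Finset.mem_univ, true_and, Finset.mem_image]
    constructor
    · rintro ⟨s, hs⟩
      exact ⟨s, by rw [hs], by rw [hs]⟩
    · rintro ⟨s, hs, hd⟩
      exact ⟨s, by rw [← hs, ← hd]⟩
  rw [h1, Finset.card_image_of_injOn]
  intro s hs s' hs' hss
  simp only [Finset.coe_filter, Finset.mem_univ, true_and, Set.mem_ofPred_eq] at hs hs'
  apply hκ
  exact Prod.ext (by rw [hs, hs']) hss

/-- the sum over the columns -/
lemma sum_cols {j : ℕ} (c : Fin (p + 1) → K)
    (hc : ∀ β ≤ p + 1, ∀ m ≤ p + 1,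
      ((1 + Polynomial.X) ^ (b - β) * ∏ r, (1 + Polynomial.C (c r) * Polynomial.X) :
        Polynomial K).coeff m =
        ((1 + Polynomial.X) ^ (p + 1 - β) - Polynomial.X ^ (p + 1) : Polynomial K).coeff m)
    (hj : j ≤ p + 1) (v : Fin j → Fin M × (Fin t × Fin b) → K) (i : Fin j → Fin M) :
    inj (Sum.elim (fun s => extM (v s) (i s)) (spec c : Spec t p → Col t b (p + 1) f → K)) =
      ∑ κ : Fin j → Fin t × Fin b, (open Classical in if Injective κ then
        (∏ s, v s (i s, κ s)) * Xhat K p (cntc fun s => (κ s).1) else 0) := by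
  classical
  rw [inj_sum]
  symm
  refine Fintype.sum_of_injective (fun κ => mainCol ∘ κ) ?_ _ _ ?_ ?_
  · intro κ κ' h
    funext s
    exact mainCol_injective (congrFun h s)
  · intro κ hκ
    have : ∃ s, κ s ∉ Set.range (mainCol : Fin t × Fin b → Col t b (p + 1) f) := by
      by_contra hall
      push Not at hall
      choose g hg using hall
      exact hκ ⟨g, by funext s; exact hg s⟩
    obtain ⟨s, hs⟩ := this
    split_ifs
    · rw [Finset.prod_eq_zero (Finset.mem_univ s) (extM_of_notMem _ _ _ hs), zero_mul]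
    · rfl
  · intro κ
    by_cases hκ : Injective κ
    · rw [if_pos hκ, if_pos (mainCol_injective.comp hκ)]
      congr 1
      have hle : ∀ a, nrem (Finset.univ.image κ) a ≤ p + 1 := by
        intro a
        rw [nrem_image κ hκ]
        exact le_trans (Finset.card_le_univ _) (by simpa using hj)
      rw [← nrem_image κ hκ, ← inj_mask (f := f) c hc (Finset.univ.image κ) hle]
      congr 1
      funext q x
      unfold mask
      have : x ∈ Set.range ((mainCol : Fin t × Fin b → Col t b (p + 1) f) ∘ κ) ↔
          x ∈ (Finset.univ.image κ).image mainCol := by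
        simp
      by_cases hx : x ∈ Set.range ((mainCol : Fin t × Fin b → Col t b (p + 1) f) ∘ κ)
      · rw [if_pos hx, if_pos (this.1 hx)]
      · rw [if_neg hx, if_neg (fun h => hx (this.2 h))]
    · rw [if_neg hκ, if_neg]
      intro h
      apply hκ
      intro s s' hss
      exact h (by simp [Function.comp, hss])

/-- a class met once gives zero -/
lemma sum_single {n : ℕ} (u : Fin (n + 1) → Fin t × Fin b → K)
    (hu : ∀ s a, ∑ d, u s (a, d) = 0) (α : Fin (n + 1) → Fin t) (s0 : Fin (n + 1))
    (hs0 : ∀ s, s ≠ s0 → α s ≠ α s0) :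
    ∑ κ : Fin (n + 1) → Fin b, (open Classical in if Injective (fun s => (α s, κ s)) then
        ∏ s, u s (α s, κ s) else 0) = 0 := by
  classical
  rw [← (Fin.insertNthEquiv (fun _ => Fin b) s0).sum_comp, Fintype.sum_prod_type, Finset.sum_comm]
  apply Finset.sum_eq_zero
  intro κ _
  have h1 : ∀ x : Fin b, (if Injective (fun s => (α s,
      (Fin.insertNthEquiv (fun _ => Fin b) s0) (x, κ) s)) then
      ∏ s, u s (α s, (Fin.insertNthEquiv (fun _ => Fin b) s0) (x, κ) s) else 0) =
      u s0 (α s0, x) * if Injective (fun s => (α (s0.succAbove s), κ s)) then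
        ∏ s, u (s0.succAbove s) (α (s0.succAbove s), κ s) else 0 := by
    intro x
    have h2 : (fun s => (α s, (Fin.insertNthEquiv (fun _ => Fin b) s0) (x, κ) s)) =
        Fin.insertNth (α := fun _ => Fin t × Fin b) s0 (α s0, x)
          (fun s => (α (s0.succAbove s), κ s)) := by
      funext s
      rcases Fin.eq_self_or_eq_succAbove s0 s with hs | ⟨s', hs⟩
      · rw [hs]; simp
      · rw [hs]; simp
    have h3 : Injective (fun s => (α s, (Fin.insertNthEquiv (fun _ => Fin b) s0) (x, κ) s)) ↔
        Injective (fun s => (α (s0.succAbove s), κ s)) := by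
      rw [h2, insertNth_injective_iff]
      constructor
      · exact fun h => h.1
      · intro h
        refine ⟨h, ?_⟩
        rintro ⟨s, hs⟩
        simp only [Prod.mk.injEq] at hs
        exact hs0 _ (Fin.succAbove_ne s0 s) hs.1
    by_cases h : Injective (fun s => (α (s0.succAbove s), κ s))
    · rw [if_pos h, if_pos (h3.2 h), Fin.prod_univ_succAbove _ s0]
      simp
    · rw [if_neg h, if_neg (fun h' => h (h3.1 h')), mul_zero]
  rw [Finset.sum_congr rfl fun x _ => h1 x, ← Finset.sum_mul, hu, zero_mul]

/-- only the constant class functions remain -/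
lemma sum_classes [CharZero K] {n : ℕ} (hp : 1 ≤ p) (u : Fin (n + 1) → Fin t × Fin b → K)
    (hu : ∀ s a, ∑ d, u s (a, d) = 0) :
    ∑ κ : Fin (n + 1) → Fin t × Fin b, (open Classical in if Injective κ then
        (∏ s, u s (κ s)) * Xhat K p (cntc fun s => (κ s).1) else 0) =
      (- ((p + 1).factorial : K) * ((p.factorial : K) * (p + 1 : K)) ^ (t - 1)) *
      ∑ a : Fin t, ∑ κ : Fin (n + 1) → Fin b, (open Classical in if Injective κ then
        ∏ s, u s (a, κ s) else 0) := by
  classical
  have h0 : ∑ κ : Fin (n + 1) → Fin t × Fin b, (if Injective κ then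
        (∏ s, u s (κ s)) * Xhat K p (cntc fun s => (κ s).1) else 0) =
      ∑ α : Fin (n + 1) → Fin t, ∑ κ : Fin (n + 1) → Fin b,
      (if Injective (fun s => (α s, κ s)) then
        (∏ s, u s (α s, κ s)) * Xhat K p (cntc fun s => α s) else 0) := by
    rw [← (Equiv.arrowProdEquivProdArrow (Fin (n + 1)) (fun _ => Fin t)
      (fun _ => Fin b)).symm.sum_comp, Fintype.sum_prod_type]
    rfl
  rw [h0]
  have h1 : ∀ α : Fin (n + 1) → Fin t, ∑ κ : Fin (n + 1) → Fin b,
      (if Injective (fun s => (α s, κ s)) then
        (∏ s, u s (α s, κ s)) * Xhat K p (cntc fun s => α s) else 0) =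
      Xhat K p (cntc α) * ∑ κ : Fin (n + 1) → Fin b,
        (if Injective (fun s => (α s, κ s)) then ∏ s, u s (α s, κ s) else 0) := by
    intro α
    rw [Finset.mul_sum]
    refine Finset.sum_congr rfl fun κ _ => ?_
    split_ifs
    · ring
    · ring
  rw [Finset.sum_congr rfl fun α _ => h1 α, Finset.mul_sum]
  symm
  refine Fintype.sum_of_injective (fun (a : Fin t) (_ : Fin (n + 1)) => a) ?_ _ _ ?_ ?_
  · intro a a' h
    exact congrFun h 0
  · intro α hα
    by_cases hs : ∃ s0, ∀ s, s ≠ s0 → α s ≠ α s0
    · obtain ⟨s0, hs0⟩ := hs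
      rw [sum_single u hu α s0 hs0, mul_zero]
    · push Not at hs
      have h2 : ∀ s, 2 ≤ cntc α (α s) := by
        intro s
        obtain ⟨s', hs', he⟩ := hs s
        unfold cntc
        exact Finset.one_lt_card.2 ⟨s', by simp [he], s, by simp, hs'⟩
      have h3 : ∃ s s', α s ≠ α s' := by
        by_contra hall
        push Not at hall
        exact hα ⟨α 0, by funext s; exact hall 0 s⟩
      obtain ⟨s, s', hne⟩ := h3
      rw [Xhat_two hp _ _ _ hne (h2 s) (h2 s'), zero_mul]
  · intro a
    have h2 : Xhat K p (cntc fun _ : Fin (n + 1) => a) =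
        - ((p + 1).factorial : K) * ((p.factorial : K) * (p + 1 : K)) ^ (t - 1) := by
      apply Xhat_single a (n + 1) (by omega)
      · simp [cntc]
      · intro a' ha'
        simp [cntc, Ne.symm ha']
    rw [h2]
    congr 1
    refine Finset.sum_congr rfl fun κ _ => ?_
    have h3 : Injective κ ↔ Injective (fun s => (a, κ s)) := by
      constructor
      · intro h s s' hs
        simp only [Prod.mk.injEq, true_and] at hs
        exact h hs
      · intro h s s' hs
        exact h (by simp [hs])
    by_cases hκ : Injective κ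
    · rw [if_pos hκ, if_pos (h3.1 hκ)]
    · rw [if_neg hκ, if_neg (fun h => hκ (h3.2 h))]

/-- **The Taylor forms.** -/
theorem taylor [CharZero K] {n : ℕ} (hp : 1 ≤ p) (hn : n + 1 ≤ p + 1)
    (hcard : M + (t * p + 1) = t * (b + (p + 1)) + f) (c : Fin (p + 1) → K)
    (hc : ∀ β ≤ p + 1, ∀ m ≤ p + 1,
      ((1 + Polynomial.X) ^ (b - β) * ∏ r, (1 + Polynomial.C (c r) * Polynomial.X) :
        Polynomial K).coeff m =
        ((1 + Polynomial.X) ^ (p + 1 - β) - Polynomial.X ^ (p + 1) : Polynomial K).coeff m)
    (W : Submodule K (Fin M × (Fin t × Fin b) → K))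
    (hW : ∀ w ∈ W, inj (full c w : Fin M ⊕ Spec t p → Col t b (p + 1) f → K) = 0)
    (hW0 : ∀ w ∈ W, ∀ r a, ∑ d, w (r, (a, d)) = 0)
    (v : Fin (n + 1) → Fin M × (Fin t × Fin b) → K) (hv : ∀ s, v s ∈ W) :
    ∑ a : Fin t, ∑ κ : Fin (n + 1) → Fin b, (open Classical in if Injective κ then
        einj (fun s (i : Fin M) => v s (i, (a, κ s))) else 0) = 0 := by
  classical
  have h1 := polar_inj' (Φ := Fin M ⊕ Spec t p → Col t b (p + 1) f) W
    (fun f r => extL K r (f (Sum.inl r)))
    (fun f => if Injective f then ∏ q, spec c q (f (Sum.inr q)) else 0)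
    (by
      intro w hw
      refine Eq.trans ?_ (hW w hw)
      unfold inj
      refine Finset.sum_congr rfl fun f _ => ?_
      by_cases hf : Injective f
      · rw [if_pos hf, if_pos hf, mul_comm, Fintype.prod_sum_type (fun r => full c w r (f r))]
        rfl
      · rw [if_neg hf, if_neg hf, zero_mul]) (n + 1) v hv
  have h2 : ∀ f : Fin M ⊕ Spec t p → Col t b (p + 1) f,
      inj (fun (s : Fin (n + 1)) (r : Fin M) => extL K r (f (Sum.inl r)) (v s)) =
      ∑ i : Fin (n + 1) → Fin M, if Injective i then
        ∏ s, extM (v s) (i s) (f (Sum.inl (i s))) else 0 := by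
    intro f
    unfold inj
    refine Finset.sum_congr rfl fun i _ => ?_
    by_cases hi : Injective i
    · rw [if_pos hi, if_pos hi]; rfl
    · rw [if_neg hi, if_neg hi]
  simp only [h2, Finset.mul_sum] at h1
  rw [Finset.sum_comm] at h1
  have h3 : ∀ i : Fin (n + 1) → Fin M,
      ∑ f : Fin M ⊕ Spec t p → Col t b (p + 1) f,
        (if Injective f then ∏ q, spec c q (f (Sum.inr q)) else 0) *
          (if Injective i then ∏ s, extM (v s) (i s) (f (Sum.inl (i s))) else 0) =
      (((M - (n + 1)).factorial : K) *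
        (- ((p + 1).factorial : K) * ((p.factorial : K) * (p + 1 : K)) ^ (t - 1))) *
        if Injective i then ∑ a : Fin t, ∑ κ : Fin (n + 1) → Fin b, (if Injective κ then
        ∏ s, v s (i s, (a, κ s)) else 0) else 0 := by
    intro i
    by_cases hi : Injective i
    · simp only [if_pos hi]
      have h7 := sum_extend i hi (fun s => extM (v s) (i s))
        (spec c : Spec t p → Col t b (p + 1) f → K) (by
        rw [Fintype.card_sum, Fintype.card_sum, Fintype.card_prod, Fintype.card_prod,
          Fintype.card_sum]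
        simp only [Fintype.card_fin, Fintype.card_unit]
        exact hcard)
      rw [sum_cols c hc hn,
        sum_classes hp (fun s q => v s (i s, q)) (fun s a => hW0 _ (hv s) _ _),
        ← mul_assoc] at h7
      convert h7 using 3
      rename_i x _
      by_cases hx : Injective x
      · rw [if_pos hx, if_pos hx]
      · rw [if_neg hx, if_neg hx]
    · simp only [if_neg hi, mul_zero, Finset.sum_const_zero]
  rw [Finset.sum_congr rfl fun i _ => h3 i, ← Finset.mul_sum] at h1
  have h4 : ((M - (n + 1)).factorial : K) *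
        (- ((p + 1).factorial : K) * ((p.factorial : K) * (p + 1 : K)) ^ (t - 1)) ≠ 0 := by
    refine mul_ne_zero (Nat.cast_ne_zero.mpr (Nat.factorial_ne_zero _))
      (mul_ne_zero (neg_ne_zero.mpr (Nat.cast_ne_zero.mpr (Nat.factorial_ne_zero _)))
      (pow_ne_zero _ (mul_ne_zero (Nat.cast_ne_zero.mpr (Nat.factorial_ne_zero _)) ?_)))
    exact_mod_cast Nat.succ_ne_zero p
  have h5 := (mul_eq_zero.1 h1).resolve_left h4
  refine Eq.trans ?_ h5
  unfold einj
  have h6 : ∀ i : Fin (n + 1) → Fin M, (if Injective i then ∑ a : Fin t,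
      ∑ κ : Fin (n + 1) → Fin b, (if Injective κ then ∏ s, v s (i s, (a, κ s)) else 0) else 0) =
      ∑ a : Fin t, ∑ κ : Fin (n + 1) → Fin b, (if Injective κ then
        (if Injective i then ∏ s, v s (i s, (a, κ s)) else 0) else 0) := by
    intro i
    by_cases hi : Injective i
    · simp only [if_pos hi]
    · simp only [if_neg hi, ite_self, Finset.sum_const_zero]
  rw [Finset.sum_congr rfl fun i _ => h6 i]
  rw [Finset.sum_comm (s := (Finset.univ : Finset (Fin (n + 1) → Fin M)))]
  refine Finset.sum_congr rfl fun a _ => ?_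
  rw [Finset.sum_comm (s := (Finset.univ : Finset (Fin (n + 1) → Fin M)))]
  refine Finset.sum_congr rfl fun κ _ => ?_
  by_cases hκ : Injective κ
  · simp only [if_pos hκ]
  · simp only [if_neg hκ, Finset.sum_const_zero]

end

end Pool.Agent.Helper33x.DC
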